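import Mathlib
import Pool.Agent.H617R3.AP.Main

/-!
# Regular scales with respect to all shorter scales

`F j = log (r_3 (2 ^ j) / 2 ^ j)` decreases from `0` and is at least `-4 √j`. For most `x` one has
`F y - F x ≤ λ (x - y)` for all `y ≤ x` (a discrete form of the rising sun lemma).
-/

set_option autoImplicit false

namespace Pool.Agent.Run7.h918.AP

open Finset Pool.Agent.H617R3.AP

/-- the logarithm of the density at the scale `2 ^ j` -/
noncomputable def F (j : ℕ) : ℝ := f 3 j

theorem F_anti : Antitone F := f_anti le_rfl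

theorem F_zero : F 0 ≤ 0 := f_nonpos le_rfl 0

theorem F_low (j : ℕ) : -(4 * √(j : ℝ)) ≤ F j := f_lower le_rfl j

/-- `F` with drift -/
noncomputable def S (lam : ℝ) (x : ℕ) : ℝ := F 0 - F x - lam * x

/-- its running minimum -/
noncomputable def R (lam : ℝ) : ℕ → ℝ
  | 0 => 0
  | (x + 1) => min (R lam x) (S lam (x + 1))

theorem R_le {lam : ℝ} {x y : ℕ} (h : y ≤ x) : R lam x ≤ S lam y := by
  induction x with
  | zero =>
    have : y = 0 := by omega
    subst this
    unfold R S
    simp
  | succ x ih =>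
    rcases Nat.lt_or_ge y (x + 1) with h1 | h1
    · exact (min_le_left _ _).trans (ih (by omega))
    · have : y = x + 1 := by omega
      subst this
      exact min_le_right _ _

/-- `x` is regular with respect to all shorter scales -/
def G2 (lam : ℝ) (x : ℕ) : Prop := ∀ y ≤ x, F y - F x ≤ lam * ((x : ℝ) - y)

theorem G2_zero (lam : ℝ) : G2 lam 0 := by
  intro y hy
  have : y = 0 := by omega
  subst this
  simp

theorem G2_succ {lam : ℝ} (hlam : 0 ≤ lam) {x : ℕ} (h : S lam (x + 1) ≤ R lam x) : G2 lam (x + 1) := by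
  intro y hy
  rcases Nat.lt_or_ge y (x + 1) with h1 | h1
  · have h2 := h.trans (R_le (show y ≤ x by omega))
    unfold S at h2
    linarith
  · have : y = x + 1 := by omega
    subst this
    simp

open Classical in
theorem neg_R_le {lam : ℝ} (x : ℕ) :
    -R lam x ≤ lam * ((range x).filter fun i => S lam (i + 1) ≤ R lam i).card := by
  induction x with
  | zero => unfold R; simp
  | succ x ih =>
    rw [range_add_one, filter_insert]
    have h1 : S lam x - lam ≤ S lam (x + 1) := by
      unfold S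
      have := F_anti (Nat.le_succ x)
      push_cast
      linarith
    have h2 := R_le (lam := lam) (le_refl x)
    by_cases h : S lam (x + 1) ≤ R lam x
    · rw [if_pos h, card_insert_of_notMem (by simp)]
      have e : R lam (x + 1) = S lam (x + 1) := min_eq_right h
      rw [e]
      push_cast
      linarith
    · rw [if_neg h]
      have e : R lam (x + 1) = R lam x := min_eq_left (by linarith)
      rw [e]
      exact ih

open Classical in
theorem bad_G2 {lam : ℝ} (hlam : 0 < lam) (x : ℕ) :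
    (((range (x + 1)).filter fun i => ¬ G2 lam i).card : ℝ) ≤ 4 * √(x : ℝ) / lam := by
  have h1 : ((range (x + 1)).filter fun i => ¬ G2 lam i).card ≤
      ((range x).filter fun i => ¬ (S lam (i + 1) ≤ R lam i)).card := by
    refine card_le_card_of_injOn (fun i => i - 1) ?_ ?_
    · intro i hi
      have hi' : i ∈ (range (x + 1)).filter fun i => ¬ G2 lam i := hi
      rw [mem_filter, mem_range] at hi'
      have hi0 : i ≠ 0 := by
        rintro rfl
        exact hi'.2 (G2_zero lam)
      obtain ⟨j, rfl⟩ : ∃ j, i = j + 1 := ⟨i - 1, by omega⟩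
      show j + 1 - 1 ∈ (range x).filter fun i => ¬ (S lam (i + 1) ≤ R lam i)
      rw [Nat.add_sub_cancel, mem_filter, mem_range]
      exact ⟨by omega, fun h => hi'.2 (G2_succ hlam.le h)⟩
    · intro i hi j hj h
      have hi' : i ∈ (range (x + 1)).filter fun i => ¬ G2 lam i := hi
      have hj' : j ∈ (range (x + 1)).filter fun i => ¬ G2 lam i := hj
      rw [mem_filter] at hi' hj'
      have hi0 : i ≠ 0 := by
        rintro rfl
        exact hi'.2 (G2_zero lam)
      have hj0 : j ≠ 0 := by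
        rintro rfl
        exact hj'.2 (G2_zero lam)
      simp only at h
      omega
  have h2 := Finset.card_filter_add_card_filter_not (s := range x)
    (fun i => S lam (i + 1) ≤ R lam i)
  rw [card_range] at h2
  have h3 := neg_R_le (lam := lam) x
  have h4 := R_le (lam := lam) (le_refl x)
  have h5 : S lam x ≤ 4 * √(x : ℝ) - lam * x := by
    unfold S
    linarith [F_zero, F_low x]
  have h6 : (((range x).filter fun i => S lam (i + 1) ≤ R lam i).card : ℝ) +
      ((range x).filter fun i => ¬ (S lam (i + 1) ≤ R lam i)).card = x := by exact_mod_cast h2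
  have h7 : (((range (x + 1)).filter fun i => ¬ G2 lam i).card : ℝ) ≤
      ((range x).filter fun i => ¬ (S lam (i + 1) ≤ R lam i)).card := by exact_mod_cast h1
  rw [le_div_iff₀ hlam]
  nlinarith

/-- the length of the window -/
def hh (m x : ℕ) : ℕ := m * (Nat.log 2 x + 1)

theorem hh_mono (m : ℕ) {x y : ℕ} (h : x ≤ y) : hh m x ≤ hh m y := by
  unfold hh
  have := Nat.log_mono_right (b := 2) h
  exact Nat.mul_le_mul_left _ (by omega)

/-- irregular scales -/
def Bd (m w x₀ : ℕ) (η : ℝ) : Set ℕ :=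
  {x | x < x₀ ∨ ¬ G2 (1 / 12) x ∨ x < hh m x ∨ η < F (x - hh m x) - F (x + w)}

open Classical in
theorem Bd_card (m w x₀ : ℕ) {η : ℝ} (hη : 0 < η) (K : ℕ) :
    (((range (K + 1)).filter fun x => x ∈ Bd m w x₀ η).card : ℝ) ≤
      x₀ + 48 * √(K : ℝ) + hh m K +
        4 * (hh m K + w) * √((K : ℝ) + 1 + (hh m K + w)) / η := by
  have h1 : (range (K + 1)).filter (fun x => x ∈ Bd m w x₀ η) ⊆
      range x₀ ∪ ((range (K + 1)).filter (fun x => ¬ G2 (1 / 12) x) ∪ (range (hh m K) ∪
        ((range (K + 1)).filter (fun i => η < f 3 i - f 3 (i + (hh m K + w)))).image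
          (fun i => i + hh m K))) := by
    intro x hx
    rw [mem_filter, mem_range] at hx
    rw [mem_union, mem_union, mem_union, mem_range, mem_filter, mem_range, mem_range, mem_image]
    obtain ⟨hxK, hxB⟩ := hx
    rcases hxB with h | h | h | h
    · exact Or.inl h
    · exact Or.inr (Or.inl ⟨hxK, h⟩)
    · exact Or.inr (Or.inr (Or.inl (h.trans_le (hh_mono m (by omega)))))
    · by_cases h2 : x < hh m K
      · exact Or.inr (Or.inr (Or.inl h2))
      · refine Or.inr (Or.inr (Or.inr ⟨x - hh m K, ?_, by omega⟩))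
        rw [mem_filter, mem_range]
        refine ⟨by omega, ?_⟩
        have h3 : F (x - hh m x) ≤ F (x - hh m K) :=
          F_anti (by have := hh_mono m (show x ≤ K by omega); omega)
        have e : x - hh m K + (hh m K + w) = x + w := by omega
        rw [e]
        unfold F at h3 h
        linarith
  have h2 := (card_le_card h1).trans ((card_union_le _ _).trans (Nat.add_le_add_left
    ((card_union_le _ _).trans (Nat.add_le_add_left ((card_union_le _ _).trans
      (Nat.add_le_add_left card_image_le _)) _)) _))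
  rw [card_range, card_range] at h2
  have h3 := bad_G2 (lam := 1 / 12) (by norm_num) K
  have h4 := card_bad_le (k := 3) le_rfl (K + 1) (hh m K + w) hη
  have h5 : (((range (K + 1)).filter (fun x => x ∈ Bd m w x₀ η)).card : ℝ) ≤
      x₀ + ((((range (K + 1)).filter (fun x => ¬ G2 (1 / 12) x)).card : ℝ) + ((hh m K : ℝ) +
        (((range (K + 1)).filter (fun i => η < f 3 i - f 3 (i + (hh m K + w)))).card : ℝ))) := by
    exact_mod_cast h2
  have e : 4 * √(K : ℝ) / (1 / 12) = 48 * √(K : ℝ) := by ring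
  rw [e] at h3
  push_cast at h4
  linarith

theorem hh_le (m : ℕ) {K : ℕ} (hK : 1 ≤ K) : (hh m K : ℝ) ≤ 2 * m * (1 + Real.log K) := by
  unfold hh
  have h1 := natlog_le hK
  push_cast
  have h2 : 0 ≤ Real.log K := Real.log_nonneg (by exact_mod_cast hK)
  have h3 : ((Nat.log 2 K : ℕ) : ℝ) + 1 ≤ 2 * (1 + Real.log K) := by linarith
  calc (m : ℝ) * (((Nat.log 2 K : ℕ) : ℝ) + 1) ≤ m * (2 * (1 + Real.log K)) :=
        mul_le_mul_of_nonneg_left h3 (Nat.cast_nonneg _)
    _ = 2 * m * (1 + Real.log K) := by ring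

open Classical in
/-- the exceptional numbers are rare -/
theorem sum_bad (m w x₀ : ℕ) {η : ℝ} (hη : 0 < η) : ∃ C : ℝ, 0 < C ∧
    ∀ E : Set ℕ, (∀ N ∈ E, Nat.log 2 N ∈ Bd m w x₀ η) → ∀ x : ℕ, 3 ≤ x →
    ∑ N ∈ (Icc 1 x).filter (fun N => N ∈ E), (1 : ℝ) / N ≤
      C * (√(Real.log x) * (1 + Real.log (1 + Real.log x))) := by
  set C₁ : ℝ := x₀ + 48 + 2 * m + 4 * (2 * m + w) * √(2 + 2 * m + w) / η with hC₁
  have hC₁0 : 0 < C₁ := by positivity
  refine ⟨3 * C₁, by positivity, fun E hE x hx => ?_⟩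
  refine (sum_blocks E _ hE x).trans ?_
  set K := Nat.log 2 x with hK
  refine (Bd_card m w x₀ hη K).trans ?_
  have hK1 : 1 ≤ K := by
    rw [hK]
    have : Nat.log 2 2 ≤ Nat.log 2 x := Nat.log_mono_right (by omega)
    have h2 : Nat.log 2 2 = 1 := by norm_num
    omega
  have hKr : (1 : ℝ) ≤ K := by exact_mod_cast hK1
  set l : ℝ := 1 + Real.log K with hl
  have hlogK : 0 ≤ Real.log K := Real.log_nonneg hKr
  have hl1 : 1 ≤ l := by linarith
  have hlK : l ≤ K := by
    have := Real.log_le_sub_one_of_pos (show (0 : ℝ) < K by linarith)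
    linarith
  have hh1 : (hh m K : ℝ) ≤ 2 * m * l := hh_le m hK1
  have hm0 : (0 : ℝ) ≤ m := Nat.cast_nonneg _
  have hw0 : (0 : ℝ) ≤ w := Nat.cast_nonneg _
  have hx0 : (0 : ℝ) ≤ x₀ := Nat.cast_nonneg _
  have hhn : (0 : ℝ) ≤ hh m K := Nat.cast_nonneg _
  have hsK : 1 ≤ √(K : ℝ) := by rw [Real.one_le_sqrt]; exact hKr
  have hsl : 1 ≤ √(K : ℝ) * l := by nlinarith
  have h1 : √((K : ℝ) + 1 + (hh m K + w)) ≤ √(K : ℝ) * √(2 + 2 * m + w) := by
    rw [← Real.sqrt_mul (by linarith)]
    apply Real.sqrt_le_sqrt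
    have : 2 * (m : ℝ) * l ≤ 2 * m * K := mul_le_mul_of_nonneg_left hlK (by positivity)
    nlinarith
  have h2 : 4 * ((hh m K : ℝ) + w) * √((K : ℝ) + 1 + (hh m K + w)) / η ≤
      (4 * (2 * m + w) * √(2 + 2 * m + w) / η) * (√(K : ℝ) * l) := by
    have h3 : (hh m K : ℝ) + w ≤ (2 * m + w) * l := by nlinarith
    have h4 : 4 * ((hh m K : ℝ) + w) * √((K : ℝ) + 1 + (hh m K + w)) ≤
        4 * ((2 * m + w) * l) * (√(K : ℝ) * √(2 + 2 * m + w)) := by
      apply mul_le_mul (by linarith) h1 (Real.sqrt_nonneg _) (by positivity)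
    calc 4 * ((hh m K : ℝ) + w) * √((K : ℝ) + 1 + (hh m K + w)) / η
        ≤ 4 * ((2 * m + w) * l) * (√(K : ℝ) * √(2 + 2 * m + w)) / η :=
          div_le_div_of_nonneg_right h4 hη.le
      _ = _ := by ring
  have h5 : (x₀ : ℝ) + 48 * √(K : ℝ) + hh m K +
      4 * (hh m K + w) * √((K : ℝ) + 1 + (hh m K + w)) / η ≤ C₁ * (√(K : ℝ) * l) := by
    have a1 : (x₀ : ℝ) ≤ x₀ * (√(K : ℝ) * l) := by nlinarith
    have a2 : 48 * √(K : ℝ) ≤ 48 * (√(K : ℝ) * l) := by nlinarith
    have a3 : (hh m K : ℝ) ≤ 2 * m * (√(K : ℝ) * l) := by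
      refine hh1.trans ?_
      have : l ≤ √(K : ℝ) * l := by nlinarith
      exact mul_le_mul_of_nonneg_left this (by positivity)
    have e : C₁ * (√(K : ℝ) * l) = x₀ * (√(K : ℝ) * l) + 48 * (√(K : ℝ) * l) +
        2 * m * (√(K : ℝ) * l) +
        (4 * (2 * m + w) * √(2 + 2 * m + w) / η) * (√(K : ℝ) * l) := by rw [hC₁]; ring
    rw [e]
    linarith
  refine h5.trans ?_
  have hxr : (3 : ℝ) ≤ x := by exact_mod_cast hx
  have hL : 1 ≤ Real.log x := by
    have h7 : Real.exp 1 ≤ x := by
      have := Real.exp_one_lt_d9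
      linarith
    have := Real.log_le_log (Real.exp_pos 1) h7
    rwa [Real.log_exp] at this
  have hKL : (K : ℝ) ≤ 3 / 2 * Real.log x := natlog_le (by omega)
  have b1 : √(K : ℝ) ≤ 3 / 2 * √(Real.log x) := by
    have h8 : √(K : ℝ) ≤ √((3 / 2) ^ 2 * Real.log x) := by
      apply Real.sqrt_le_sqrt
      nlinarith
    rwa [Real.sqrt_mul (by positivity), Real.sqrt_sq (by norm_num)] at h8
  have b2 : l ≤ 2 * (1 + Real.log (1 + Real.log x)) := by
    have h9 : Real.log K ≤ Real.log (3 / 2 * (1 + Real.log x)) := by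
      apply Real.log_le_log (by linarith)
      linarith
    rw [Real.log_mul (by norm_num) (by linarith)] at h9
    have h10 : Real.log (3 / 2) ≤ 1 / 2 := by
      have := Real.log_le_sub_one_of_pos (show (0 : ℝ) < 3 / 2 by norm_num)
      linarith
    have h11 : 0 ≤ Real.log (1 + Real.log x) := Real.log_nonneg (by linarith)
    linarith
  have hs0 : 0 ≤ √(Real.log x) := Real.sqrt_nonneg _
  calc C₁ * (√(K : ℝ) * l) ≤ C₁ * ((3 / 2 * √(Real.log x)) *
        (2 * (1 + Real.log (1 + Real.log x)))) := by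
        apply mul_le_mul_of_nonneg_left _ hC₁0.le
        exact mul_le_mul b1 b2 (by linarith) (by positivity)
    _ = 3 * C₁ * (√(Real.log x) * (1 + Real.log (1 + Real.log x))) := by ring

end Pool.Agent.Run7.h918.AP
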