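import Mathlib

/-!
# Containers for 3-uniform hypergraphs of bounded codegree: one phase of the decision tree

`H x y z` is a symmetric ternary relation such that each pair `x, y` is in at most three related
triples. If every set `W` with more than `m₀` elements contains at least `6 D |W|` ordered related
triples, then the sets without related triples are decided, up to a set of at most `m₀` elements,
by at most `4 |W| / √D` of their elements.
-/

set_option autoImplicit false
set_option linter.unusedSectionVars false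

namespace Pool.Agent.Run7.h918.AP

open Finset

variable {V : Type} [DecidableEq V]

open Classical in
/-- the neighbours of `v` in `W` -/
noncomputable def nb (g : V → V → Prop) (W : Finset V) (v : V) : Finset V :=
  W.filter fun w => g v w

open Classical in
/-- the ordered edges in `W` -/
noncomputable def pr (g : V → V → Prop) (W : Finset V) : Finset (V × V) :=
  (W ×ˢ W).filter fun p => g p.1 p.2

open Classical in
/-- the ordered triples in `W` -/
noncomputable def tr (H : V → V → V → Prop) (W : Finset V) : Finset (V × V × V) :=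
  (W ×ˢ W ×ˢ W).filter fun p => H p.1 p.2.1 p.2.2

theorem mem_nb {g : V → V → Prop} {W : Finset V} {v w : V} : w ∈ nb g W v ↔ w ∈ W ∧ g v w := by
  classical
  unfold nb
  rw [mem_filter]

theorem mem_pr {g : V → V → Prop} {W : Finset V} {p : V × V} :
    p ∈ pr g W ↔ (p.1 ∈ W ∧ p.2 ∈ W) ∧ g p.1 p.2 := by
  classical
  unfold pr
  rw [mem_filter, mem_product]

theorem mem_tr {H : V → V → V → Prop} {W : Finset V} {p : V × V × V} :
    p ∈ tr H W ↔ (p.1 ∈ W ∧ p.2.1 ∈ W ∧ p.2.2 ∈ W) ∧ H p.1 p.2.1 p.2.2 := by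
  classical
  unfold tr
  rw [mem_filter, mem_product, mem_product]

/-- the sets of `W` without triples and without edges are covered by containers in `U₀` of size at
most `M`, which are determined by `s` elements -/
def Cov (H : V → V → V → Prop) (M : ℝ) (U₀ W : Finset V) (g : V → V → Prop) (s : ℝ) : Prop :=
  ∃ F : Finset V → Finset V, (∀ T, F T ⊆ U₀ ∧ ((F T).card : ℝ) ≤ M) ∧
    ∀ S ⊆ W, (∀ x ∈ S, ∀ y ∈ S, ∀ z ∈ S, ¬ H x y z) → (∀ x ∈ S, ∀ y ∈ S, ¬ g x y) →
      ∃ T ⊆ S, (T.card : ℝ) ≤ s ∧ S ⊆ T ∪ F T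

theorem Cov.mono {H : V → V → V → Prop} {M : ℝ} {U₀ W : Finset V} {g : V → V → Prop} {s s' : ℝ}
    (h : Cov H M U₀ W g s) (hs : s ≤ s') : Cov H M U₀ W g s' := by
  obtain ⟨F, h1, h2⟩ := h
  refine ⟨F, h1, fun S hS h3 h4 => ?_⟩
  obtain ⟨T, hT, h5, h6⟩ := h2 S hS h3 h4
  exact ⟨T, hT, h5.trans hs, h6⟩

/-- the budget -/
noncomputable def Y (θ D : ℝ) (W : Finset V) (g : V → V → Prop) : ℝ :=
  W.card / θ + (2 * (θ + 3) * W.card - (pr g W).card) / (3 * D)

theorem pr_card_fst {g : V → V → Prop} {W X : Finset V} {Δ : ℝ} (hX : X ⊆ W)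
    (hd : ∀ x ∈ W, ((nb g W x).card : ℝ) ≤ Δ) :
    (((pr g W).filter fun p => p.1 ∈ X).card : ℝ) ≤ Δ * X.card := by
  classical
  have h1 : ((pr g W).filter fun p => p.1 ∈ X) ⊆ X.biUnion fun x => (nb g W x).image fun y => (x, y) := by
    intro p hp
    rw [mem_filter] at hp
    unfold pr at hp
    rw [mem_filter, mem_product] at hp
    rw [mem_biUnion]
    refine ⟨p.1, hp.2, ?_⟩
    rw [mem_image]
    exact ⟨p.2, by unfold nb; rw [mem_filter]; exact ⟨hp.1.1.2, hp.1.2⟩, rfl⟩
  have h2 := (card_le_card h1).trans card_biUnion_le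
  have h3 : ∑ x ∈ X, (((nb g W x).image fun y => (x, y)).card : ℝ) ≤ ∑ x ∈ X, Δ :=
    sum_le_sum fun x hx => le_trans (by exact_mod_cast card_image_le) (hd x (hX hx))
  rw [sum_const, nsmul_eq_mul] at h3
  calc (((pr g W).filter fun p => p.1 ∈ X).card : ℝ)
      ≤ ∑ x ∈ X, (((nb g W x).image fun y => (x, y)).card : ℝ) := by exact_mod_cast h2
    _ ≤ X.card * Δ := h3
    _ = Δ * X.card := mul_comm _ _

theorem pr_card_snd {g : V → V → Prop} (hg : ∀ x y, g x y → g y x) {W X : Finset V} {Δ : ℝ}
    (hX : X ⊆ W) (hd : ∀ x ∈ W, ((nb g W x).card : ℝ) ≤ Δ) :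
    (((pr g W).filter fun p => p.2 ∈ X).card : ℝ) ≤ Δ * X.card := by
  classical
  refine le_trans ?_ (pr_card_fst hX hd)
  norm_cast
  refine card_le_card_of_injOn (fun p => (p.2, p.1)) ?_ ?_
  · intro p hp
    have hp' : p ∈ (pr g W).filter fun p => p.2 ∈ X := hp
    rw [mem_filter] at hp'
    unfold pr at hp'
    rw [mem_filter, mem_product] at hp'
    show (p.2, p.1) ∈ (pr g W).filter fun p => p.1 ∈ X
    rw [mem_filter]
    unfold pr
    rw [mem_filter, mem_product]
    exact ⟨⟨⟨hp'.1.1.2, hp'.1.1.1⟩, hg _ _ hp'.1.2⟩, hp'.2⟩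
  · intro p _ q _ h
    simp only [Prod.mk.injEq] at h
    exact Prod.ext h.2 h.1

theorem pr_sub {g : V → V → Prop} (hg : ∀ x y, g x y → g y x) {W W' : Finset V} {Δ : ℝ}
    (hW : W' ⊆ W) (hd : ∀ x ∈ W, ((nb g W x).card : ℝ) ≤ Δ) :
    ((pr g W).card : ℝ) ≤ (pr g W').card + 2 * Δ * ((W.card : ℝ) - W'.card) := by
  classical
  have h1 : pr g W ⊆ pr g W' ∪ (((pr g W).filter fun p => p.1 ∈ W \ W') ∪
      ((pr g W).filter fun p => p.2 ∈ W \ W')) := by
    intro p hp
    have hp' := hp
    unfold pr at hp'
    rw [mem_filter, mem_product] at hp'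
    rw [mem_union, mem_union, mem_filter, mem_filter]
    by_cases h1 : p.1 ∈ W'
    · by_cases h2 : p.2 ∈ W'
      · left
        unfold pr
        rw [mem_filter, mem_product]
        exact ⟨⟨h1, h2⟩, hp'.2⟩
      · right; right
        exact ⟨hp, mem_sdiff.2 ⟨hp'.1.2, h2⟩⟩
    · right; left
      exact ⟨hp, mem_sdiff.2 ⟨hp'.1.1, h1⟩⟩
  have h2 := (card_le_card h1).trans ((card_union_le _ _).trans
    (Nat.add_le_add_left (card_union_le _ _) _))
  have h3 := pr_card_fst (g := g) (X := W \ W') (sdiff_subset) hd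
  have h4 := pr_card_snd hg (X := W \ W') (sdiff_subset) hd
  have h5 : ((W \ W').card : ℝ) = (W.card : ℝ) - W'.card := by
    have := card_sdiff_add_card_eq_card hW
    have h6 : ((W \ W').card : ℝ) + W'.card = W.card := by exact_mod_cast this
    linarith
  rw [h5] at h3 h4
  have h7 : ((pr g W).card : ℝ) ≤ (pr g W').card +
      ((((pr g W).filter fun p => p.1 ∈ W \ W').card : ℝ) +
        ((pr g W).filter fun p => p.2 ∈ W \ W').card) := by exact_mod_cast h2
  linarith

theorem Y_sub {θ D : ℝ} (hθ : 0 < θ) (hD : 0 < D) {g : V → V → Prop} (hg : ∀ x y, g x y → g y x)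
    {W W' : Finset V} (hW : W' ⊆ W) (hd : ∀ x ∈ W, ((nb g W x).card : ℝ) ≤ θ + 3) :
    Y θ D W' g + ((W.card : ℝ) - W'.card) / θ ≤ Y θ D W g := by
  have h := pr_sub hg hW hd
  unfold Y
  have e : (W.card : ℝ) / θ = W'.card / θ + ((W.card : ℝ) - W'.card) / θ := by
    field_simp; ring
  rw [e]
  have h2 : (2 * (θ + 3) * (W'.card : ℝ) - (pr g W').card) / (3 * D) ≤
      (2 * (θ + 3) * (W.card : ℝ) - (pr g W).card) / (3 * D) := by
    apply div_le_div_of_nonneg_right _ (by positivity)
    linarith
  linarith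

theorem nb_mono {g : V → V → Prop} {W W' : Finset V} (hW : W' ⊆ W) {θ : ℝ}
    (hd : ∀ x ∈ W, ((nb g W x).card : ℝ) ≤ θ) : ∀ x ∈ W', ((nb g W' x).card : ℝ) ≤ θ := by
  intro x hx
  refine le_trans ?_ (hd x (hW hx))
  classical
  unfold nb
  exact_mod_cast card_le_card (filter_subset_filter _ hW)

/-- combination of the two answers of a query -/
theorem Cov.query {H : V → V → V → Prop} {M : ℝ} {U₀ W W₂ : Finset V} {g g' : V → V → Prop}
    {s : ℝ} {v : V} (h1 : Cov H M U₀ (W.erase v) g s)
    (h2 : Cov H M U₀ W₂ g' (s - 1))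
    (hW₂ : ∀ S ⊆ W, v ∈ S → (∀ x ∈ S, ∀ y ∈ S, ∀ z ∈ S, ¬ H x y z) → (∀ x ∈ S, ∀ y ∈ S, ¬ g x y) →
      S.erase v ⊆ W₂ ∧ ∀ x ∈ S.erase v, ∀ y ∈ S.erase v, ¬ g' x y) :
    Cov H M U₀ W g s := by
  obtain ⟨F₁, hF₁, hS₁⟩ := h1
  obtain ⟨F₂, hF₂, hS₂⟩ := h2
  refine ⟨fun T => if v ∈ T then F₂ (T.erase v) else F₁ T, fun T => ?_, fun S hS hH hg => ?_⟩
  · by_cases hv : v ∈ T
    · simp only [if_pos hv]; exact hF₂ _
    · simp only [if_neg hv]; exact hF₁ _
  · by_cases hv : v ∈ S
    · obtain ⟨h3, h4⟩ := hW₂ S hS hv hH hg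
      obtain ⟨T, hT, hTc, hTS⟩ := hS₂ (S.erase v) h3
        (fun x hx y hy z hz => hH x (mem_of_mem_erase hx) y (mem_of_mem_erase hy) z
          (mem_of_mem_erase hz)) h4
      have hvT : v ∉ T := fun h => (mem_erase.1 (hT h)).1 rfl
      refine ⟨insert v T, ?_, ?_, ?_⟩
      · rw [insert_subset_iff]
        exact ⟨hv, hT.trans (erase_subset _ _)⟩
      · rw [card_insert_of_notMem hvT]
        push_cast
        linarith
      · simp only [mem_insert_self, if_true, erase_insert hvT]
        intro x hx
        by_cases hxv : x = v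
        · subst hxv
          exact mem_union_left _ (mem_insert_self _ _)
        · have := hTS (mem_erase.2 ⟨hxv, hx⟩)
          rw [mem_union] at this ⊢
          rcases this with h | h
          · exact Or.inl (mem_insert_of_mem h)
          · exact Or.inr h
    · obtain ⟨T, hT, hTc, hTS⟩ := hS₁ S (fun x hx => mem_erase.2 ⟨fun h => hv (h ▸ hx), hS hx⟩) hH hg
      refine ⟨T, hT, hTc, ?_⟩
      have hvT : v ∉ T := fun h => hv (hT h)
      simp only [if_neg hvT]
      exact hTS

theorem Y_nonneg {θ D : ℝ} (hθ : 0 < θ) (hD : 0 < D) {g : V → V → Prop}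
    {W : Finset V} (hd : ∀ x ∈ W, ((nb g W x).card : ℝ) ≤ θ + 3) : 0 ≤ Y θ D W g := by
  classical
  unfold Y
  have h := pr_card_fst (g := g) (X := W) (Subset.refl _) hd
  have e : ((pr g W).filter fun p => p.1 ∈ W) = pr g W := by
    apply filter_true_of_mem
    intro p hp
    unfold pr at hp
    rw [mem_filter, mem_product] at hp
    exact hp.1.1
  rw [e] at h
  have h1 : (0 : ℝ) ≤ W.card := Nat.cast_nonneg _
  have h2 : 0 ≤ (2 * (θ + 3) * (W.card : ℝ) - (pr g W).card) / (3 * D) := by
    apply div_nonneg _ (by positivity)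
    nlinarith
  positivity

/-- one phase -/
theorem tree {H : V → V → V → Prop} (hH : ∀ x y z, H x y z → H x z y)
    (hcyc : ∀ x y z, H x y z → H y z x)
    (hirr : ∀ x y, ¬ H x x y) {U₀ : Finset V} 
    (hcod : ∀ v x, ((nb (H v) U₀ x).card : ℝ) ≤ 3) {M θ D m₀ b : ℝ} (hM : 0 ≤ M)
    (hθ : 0 < θ) (hθD : θ ≤ D) (hb : 0 ≤ b) (hm₀ : 0 ≤ m₀)
    (hsup : ∀ W ⊆ U₀, m₀ < W.card → 6 * D * W.card ≤ ((tr H W).card : ℝ))
    (hbase : ∀ W ⊆ U₀, ((W.card : ℕ) : ℝ) ≤ m₀ → Cov H M U₀ W (fun _ _ => False) b) :
    ∀ (n : ℕ) (W : Finset V), W ⊆ U₀ → W.card ≤ n → ∀ g : V → V → Prop, (∀ x y, g x y → g y x) →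
      (∀ x ∈ W, ((nb g W x).card : ℝ) ≤ θ + 3) → Cov H M U₀ W g (b + Y θ D W g) := by
  classical
  have hD : 0 < D := lt_of_lt_of_le hθ hθD
  have base : ∀ W ⊆ U₀, ((W.card : ℕ) : ℝ) ≤ m₀ → ∀ g : V → V → Prop,
      (∀ x ∈ W, ((nb g W x).card : ℝ) ≤ θ + 3) → Cov H M U₀ W g (b + Y θ D W g) := by
    intro W hW hm g hd
    obtain ⟨F, h1, h2⟩ := hbase W hW hm
    refine ⟨F, h1, fun S hS h3 _ => ?_⟩
    obtain ⟨T, hT, h5, h6⟩ := h2 S hS h3 (fun _ _ _ _ => id)
    exact ⟨T, hT, h5.trans (by linarith [Y_nonneg hθ hD hd]), h6⟩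
  intro n
  induction n with
  | zero =>
    intro W hW hn g hg hd
    by_cases hm : ((W.card : ℕ) : ℝ) ≤ m₀
    · exact base W hW hm g hd
    · have h0 : W = ∅ := card_eq_zero.1 (by omega)
      subst h0
      refine ⟨fun _ => ∅, fun T => ⟨empty_subset _, ?_⟩, fun S hS _ _ => ?_⟩
      · simpa using hM
      · have : S = ∅ := subset_empty.1 hS
        subst this
        exact ⟨∅, by simp, by simpa using add_nonneg hb (Y_nonneg hθ hD hd), by simp⟩
  | succ n ih =>
    intro W hW hn g hg hd
    by_cases hm : ((W.card : ℕ) : ℝ) ≤ m₀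
    · exact base W hW hm g hd
    push Not at hm
    by_cases hA : ∃ v ∈ W, θ ≤ ((nb g W v).card : ℝ)
    · -- a vertex of high degree in the graph
      obtain ⟨v, hv, hdeg⟩ := hA
      have e1 : W.erase v ⊆ W := erase_subset _ _
      have c1 : (W.erase v).card ≤ n := by
        rw [card_erase_of_mem hv]; omega
      have y1 := Y_sub hθ hD hg e1 hd
      have c1' : ((W.erase v).card : ℝ) ≤ W.card := by exact_mod_cast card_le_card e1
      have h1 := (ih (W.erase v) (e1.trans hW) c1 g hg (nb_mono e1 hd)).mono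
        (s' := b + Y θ D W g) (by
          have : 0 ≤ ((W.card : ℝ) - (W.erase v).card) / θ := div_nonneg (by linarith) hθ.le
          linarith)
      set W₂ := (W \ nb g W v).erase v with hW₂
      have e2 : W₂ ⊆ W := (erase_subset _ _).trans sdiff_subset
      have e3 : W₂ ⊆ W.erase v := erase_subset_erase _ sdiff_subset
      have c2 : W₂.card ≤ n := (card_le_card e3).trans c1
      have y2 := Y_sub hθ hD hg e2 hd
      have c3 : (W₂.card : ℝ) + θ ≤ W.card := by
        have e5 : W₂.card ≤ (W \ nb g W v).card := card_le_card (erase_subset _ _)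
        have e6 : (W \ nb g W v).card + (nb g W v).card = W.card :=
          card_sdiff_add_card_eq_card (filter_subset _ _)
        have e7 : (W₂.card : ℝ) ≤ ((W \ nb g W v).card : ℝ) := by exact_mod_cast e5
        have e8 : ((W \ nb g W v).card : ℝ) + ((nb g W v).card : ℝ) = (W.card : ℝ) := by
          exact_mod_cast e6
        linarith
      have h2 := (ih W₂ (e2.trans hW) c2 g hg (nb_mono e2 hd)).mono
        (s' := b + Y θ D W g - 1) (by
          have : 1 ≤ ((W.card : ℝ) - W₂.card) / θ := by
            rw [le_div_iff₀ hθ]; linarith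
          linarith)
      refine Cov.query h1 h2 fun S hS hvS _ hgS => ⟨fun x hx => ?_, fun x hx y hy =>
        hgS x (mem_of_mem_erase hx) y (mem_of_mem_erase hy)⟩
      rw [mem_erase] at hx
      rw [hW₂, mem_erase, mem_sdiff]
      refine ⟨hx.1, hS hx.2, fun h => ?_⟩
      unfold nb at h
      rw [mem_filter] at h
      exact hgS v hvS x hx.2 h.2
    · -- all degrees are small
      push Not at hA
      have hcount : ∃ v ∈ W, 3 * D ≤ (((W ×ˢ W).filter fun p => H v p.1 p.2 ∧ ¬ g p.1 p.2).card : ℝ) := by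
        by_contra hcon
        push Not at hcon
        have h1 := hsup W hW hm
        -- triples: with an edge or without
        have h2 : tr H W ⊆ ((pr g W).biUnion fun p => (nb (H p.1) W p.2).image fun z => (z, p.1, p.2)) ∪
            (W.biUnion fun v => ((W ×ˢ W).filter fun p => H v p.1 p.2 ∧ ¬ g p.1 p.2).image
              fun p => (v, p.1, p.2)) := by
          rintro ⟨z, x, y⟩ hp
          unfold tr at hp
          rw [mem_filter, mem_product, mem_product] at hp
          obtain ⟨⟨hz, hx, hy⟩, hHp⟩ := hp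
          simp only at hz hx hy hHp
          rw [mem_union, mem_biUnion, mem_biUnion]
          by_cases hgxy : g x y
          · left
            refine ⟨(x, y), ?_, ?_⟩
            · unfold pr
              rw [mem_filter, mem_product]
              exact ⟨⟨hx, hy⟩, hgxy⟩
            · rw [mem_image]
              refine ⟨z, ?_, rfl⟩
              unfold nb
              rw [mem_filter]
              exact ⟨hz, hcyc _ _ _ hHp⟩
          · right
            refine ⟨z, hz, ?_⟩
            rw [mem_image]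
            refine ⟨(x, y), ?_, rfl⟩
            rw [mem_filter, mem_product]
            exact ⟨⟨hx, hy⟩, hHp, hgxy⟩
        have h3 : ((tr H W).card : ℝ) ≤ (((pr g W).biUnion fun p =>
            (nb (H p.1) W p.2).image fun z => (z, p.1, p.2)).card : ℝ) +
            ((W.biUnion fun v => ((W ×ˢ W).filter fun p => H v p.1 p.2 ∧ ¬ g p.1 p.2).image
              fun p => (v, p.1, p.2)).card : ℝ) := by
          exact_mod_cast (card_le_card h2).trans (card_union_le _ _)
        have h4 : (((pr g W).biUnion fun p =>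
            (nb (H p.1) W p.2).image fun z => (z, p.1, p.2)).card : ℝ) ≤ 3 * (θ * W.card) := by
          have h5 : (((pr g W).biUnion fun p =>
              (nb (H p.1) W p.2).image fun z => (z, p.1, p.2)).card : ℝ) ≤
              ∑ p ∈ pr g W, (3 : ℝ) := by
            refine le_trans (b := ∑ p ∈ pr g W, (((nb (H p.1) W p.2).image
              fun z => (z, p.1, p.2)).card : ℝ)) (by exact_mod_cast card_biUnion_le) ?_
            refine sum_le_sum fun p _ => ?_
            have h6 : (((nb (H p.1) W p.2).image fun z => (z, p.1, p.2)).card : ℝ) ≤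
                ((nb (H p.1) W p.2).card : ℝ) := by exact_mod_cast card_image_le
            have h7 : ((nb (H p.1) W p.2).card : ℝ) ≤ ((nb (H p.1) U₀ p.2).card : ℝ) := by
              unfold nb
              exact_mod_cast card_le_card (filter_subset_filter _ hW)
            exact h6.trans (h7.trans (hcod _ _))
          rw [sum_const, nsmul_eq_mul] at h5
          have h8 := pr_card_fst (g := g) (X := W) (Δ := θ) (Subset.refl _)
            (fun x hx => (hA x hx).le)
          have e : ((pr g W).filter fun p => p.1 ∈ W) = pr g W := by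
            apply filter_true_of_mem
            intro p hp
            unfold pr at hp
            rw [mem_filter, mem_product] at hp
            exact hp.1.1
          rw [e] at h8
          linarith
        have hWpos : (0 : ℝ) < W.card := lt_of_le_of_lt hm₀ hm
        have hWne : W.Nonempty := by
          rw [← card_pos]; exact_mod_cast hWpos
        have h9 : ((W.biUnion fun v => ((W ×ˢ W).filter fun p => H v p.1 p.2 ∧ ¬ g p.1 p.2).image
              fun p => (v, p.1, p.2)).card : ℝ) < W.card * (3 * D) := by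
          refine lt_of_le_of_lt (b := ∑ v ∈ W, (((W ×ˢ W).filter fun p =>
            H v p.1 p.2 ∧ ¬ g p.1 p.2).card : ℝ)) ?_ ?_
          · refine le_trans (b := ∑ v ∈ W, ((((W ×ˢ W).filter fun p =>
              H v p.1 p.2 ∧ ¬ g p.1 p.2).image fun p => (v, p.1, p.2)).card : ℝ))
              (by exact_mod_cast card_biUnion_le) ?_
            exact sum_le_sum fun v _ => by exact_mod_cast card_image_le
          · calc ∑ v ∈ W, (((W ×ˢ W).filter fun p => H v p.1 p.2 ∧ ¬ g p.1 p.2).card : ℝ)
                < ∑ _v ∈ W, 3 * D := sum_lt_sum_of_nonempty hWne fun v hv => hcon v hv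
              _ = W.card * (3 * D) := by rw [sum_const, nsmul_eq_mul]
        have h10 : θ * W.card ≤ D * W.card := mul_le_mul_of_nonneg_right hθD hWpos.le
        linarith
      obtain ⟨v, hv, hcard⟩ := hcount
      have e1 : W.erase v ⊆ W := erase_subset _ _
      have c1 : (W.erase v).card ≤ n := by
        rw [card_erase_of_mem hv]; omega
      have y1 := Y_sub hθ hD hg e1 hd
      have c1' : ((W.erase v).card : ℝ) ≤ W.card := by exact_mod_cast card_le_card e1
      have h1 := (ih (W.erase v) (e1.trans hW) c1 g hg (nb_mono e1 hd)).mono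
        (s' := b + Y θ D W g) (by
          have : 0 ≤ ((W.card : ℝ) - (W.erase v).card) / θ := div_nonneg (by linarith) hθ.le
          linarith)
      set g' : V → V → Prop := fun x y => g x y ∨ H v x y with hg'
      have hsym : ∀ x y, g' x y → g' y x := by
        rintro x y (h | h)
        · exact Or.inl (hg _ _ h)
        · exact Or.inr (hH _ _ _ h)
      have hd' : ∀ x ∈ W.erase v, ((nb g' (W.erase v) x).card : ℝ) ≤ θ + 3 := by
        intro x hx
        have hx' := mem_of_mem_erase hx
        have h3 : nb g' (W.erase v) x ⊆ nb g W x ∪ nb (H v) U₀ x := by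
          intro y hy
          rw [mem_nb] at hy
          have hyW := mem_of_mem_erase hy.1
          rw [mem_union, mem_nb, mem_nb]
          rcases hy.2 with h | h
          · exact Or.inl ⟨hyW, h⟩
          · exact Or.inr ⟨hW hyW, h⟩
        have h4 := (card_le_card h3).trans (card_union_le _ _)
        have h5 : ((nb g' (W.erase v) x).card : ℝ) ≤ (nb g W x).card + (nb (H v) U₀ x).card := by
          exact_mod_cast h4
        linarith [hA x hx', hcod v x]
      have h2 := (ih (W.erase v) (e1.trans hW) c1 g' hsym hd').mono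
        (s' := b + Y θ D W g - 1) (by
          have h3 : ((pr g (W.erase v)).card : ℝ) + 3 * D ≤ (pr g' (W.erase v)).card := by
            have h5 : pr g (W.erase v) ∪ ((W ×ˢ W).filter fun p => H v p.1 p.2 ∧ ¬ g p.1 p.2) ⊆
                pr g' (W.erase v) := by
              intro p hp
              rw [mem_union] at hp
              rw [mem_pr] at hp ⊢
              rcases hp with h | h
              · exact ⟨h.1, Or.inl h.2⟩
              · rw [mem_filter, mem_product] at h
                obtain ⟨⟨hx, hy⟩, hHp, _⟩ := h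
                refine ⟨⟨mem_erase.2 ⟨fun hv' => ?_, hx⟩, mem_erase.2 ⟨fun hv' => ?_, hy⟩⟩,
                  Or.inr hHp⟩
                · rw [hv'] at hHp
                  exact hirr _ _ hHp
                · rw [hv'] at hHp
                  exact hirr _ _ (hH _ _ _ hHp)
            have h6 : Disjoint (pr g (W.erase v))
                ((W ×ˢ W).filter fun p => H v p.1 p.2 ∧ ¬ g p.1 p.2) := by
              rw [disjoint_left]
              intro p hp hp2
              rw [mem_pr] at hp
              rw [mem_filter] at hp2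
              exact hp2.2.2 hp.2
            have h7 := card_le_card h5
            rw [card_union_of_disjoint h6] at h7
            have h8 : ((pr g (W.erase v)).card : ℝ) +
                (((W ×ˢ W).filter fun p => H v p.1 p.2 ∧ ¬ g p.1 p.2).card : ℝ) ≤
                (pr g' (W.erase v)).card := by exact_mod_cast h7
            linarith
          have h4 : Y θ D (W.erase v) g' + 1 ≤ Y θ D (W.erase v) g := by
            unfold Y
            have e : (2 * (θ + 3) * ((W.erase v).card : ℝ) - (pr g (W.erase v)).card) / (3 * D) =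
                (2 * (θ + 3) * ((W.erase v).card : ℝ) - (pr g (W.erase v)).card - 3 * D) / (3 * D)
                  + 1 := by
              field_simp; ring
            rw [e]
            have : (2 * (θ + 3) * ((W.erase v).card : ℝ) - (pr g' (W.erase v)).card) / (3 * D) ≤
                (2 * (θ + 3) * ((W.erase v).card : ℝ) - (pr g (W.erase v)).card - 3 * D) /
                  (3 * D) := by
              apply div_le_div_of_nonneg_right _ (by positivity)
              linarith
            linarith
          have : 0 ≤ ((W.card : ℝ) - (W.erase v).card) / θ := div_nonneg (by linarith) hθ.le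
          linarith)
      refine Cov.query h1 h2 fun S hS hvS hHS hgS => ⟨erase_subset_erase _ hS, fun x hx y hy h => ?_⟩
      rcases h with h | h
      · exact hgS x (mem_of_mem_erase hx) y (mem_of_mem_erase hy) h
      · exact hHS v hvS x (mem_of_mem_erase hx) y (mem_of_mem_erase hy) h

/-- one phase, started without edges; `θ = √D` -/
theorem phase {H : V → V → V → Prop} (hH : ∀ x y z, H x y z → H x z y)
    (hcyc : ∀ x y z, H x y z → H y z x)
    (hirr : ∀ x y, ¬ H x x y) {U₀ : Finset V}
    (hcod : ∀ v x, ((nb (H v) U₀ x).card : ℝ) ≤ 3) {M D m₀ b : ℝ} (hM : 0 ≤ M)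
    (hD : 1 ≤ D) (hb : 0 ≤ b) (hm₀ : 0 ≤ m₀)
    (hsup : ∀ W ⊆ U₀, m₀ < W.card → 6 * D * W.card ≤ ((tr H W).card : ℝ))
    (hbase : ∀ W ⊆ U₀, ((W.card : ℕ) : ℝ) ≤ m₀ → Cov H M U₀ W (fun _ _ => False) b)
    (W : Finset V) (hW : W ⊆ U₀) :
    Cov H M U₀ W (fun _ _ => False) (b + 4 * W.card / √D) := by
  have hs0 : 1 ≤ √D := by rw [Real.one_le_sqrt]; exact hD
  have hs1 : √D * √D = D := Real.mul_self_sqrt (by linarith)
  have hsD : √D ≤ D := by nlinarith
  have hnb : ∀ x ∈ W, ((nb (fun _ _ => False) W x).card : ℝ) ≤ √D + 3 := by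
    intro x _
    have : nb (fun _ _ => False) W x = (∅ : Finset V) := by
      apply eq_empty_of_forall_notMem
      intro y hy
      rw [mem_nb] at hy
      exact hy.2
    rw [this, card_empty]
    push_cast
    linarith
  refine (tree hH hcyc hirr hcod hM (lt_of_lt_of_le one_pos hs0) hsD hb hm₀ hsup hbase W.card W hW
    le_rfl (fun _ _ => False) (fun _ _ => id) hnb).mono ?_
  have hpr : pr (fun _ _ => False) W = (∅ : Finset (V × V)) := by
    apply eq_empty_of_forall_notMem
    intro y hy
    rw [mem_pr] at hy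
    exact hy.2
  unfold Y
  rw [hpr, card_empty]
  push_cast
  have h0 : (0 : ℝ) ≤ W.card := Nat.cast_nonneg _
  have hs : 0 < √D := by linarith
  have h1 : (2 * (√D + 3) * (W.card : ℝ) - 0) / (3 * D) ≤ 3 * W.card / √D := by
    rw [div_le_div_iff₀ (by positivity) hs]
    have h2 : 2 * (√D + 3) ≤ 9 * √D := by linarith
    have h3 : 2 * (√D + 3) * √D ≤ 9 * D := by nlinarith
    nlinarith
  have e : 4 * (W.card : ℝ) / √D = W.card / √D + 3 * W.card / √D := by ring
  rw [e]
  linarith

end Pool.Agent.Run7.h918.AP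

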