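import Mathlib
import Pool.Agent.H617R3.AP.Scale
import Pool.Agent.Run7.h918.AP.Tree

/-!
# Supersaturation: many three-term progressions in sets which are large in short progressions
-/

set_option autoImplicit false

namespace Pool.Agent.Run7.h918.AP

open Finset Pool.Agent.H617R3.AP

/-- `x, y, z` are distinct and form a three-term progression in some order -/
def H (x y z : ℕ) : Prop :=
  (x ≠ y ∧ y ≠ z ∧ x ≠ z) ∧ (x + y = 2 * z ∨ y + z = 2 * x ∨ x + z = 2 * y)

theorem H_swap (x y z : ℕ) (h : H x y z) : H x z y := by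
  unfold H at *; omega

theorem H_cyc (x y z : ℕ) (h : H x y z) : H y z x := by
  unfold H at *; omega

theorem H_irr (x y : ℕ) : ¬ H x x y := by
  unfold H; omega

theorem H_cod (U : Finset ℕ) (v x : ℕ) : ((nb (H v) U x).card : ℝ) ≤ 3 := by
  have h1 : nb (H v) U x ⊆ {(v + x) / 2, 2 * v - x, 2 * x - v} := by
    intro y hy
    rw [mem_nb] at hy
    have h := hy.2
    unfold H at h
    simp only [mem_insert, mem_singleton]
    omega
  have h2 := (card_le_card h1).trans card_le_three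
  exact_mod_cast h2

/-- the pairs `(a, d)` such that `a, a + d, a + 2 d` are in `W` and `d ≥ 1` -/
def aps (N : ℕ) (W : Finset ℕ) : Finset (ℕ × ℕ) :=
  (W ×ˢ Icc 1 N).filter fun p => p.1 + p.2 ∈ W ∧ p.1 + 2 * p.2 ∈ W

theorem mem_aps {N : ℕ} {W : Finset ℕ} {p : ℕ × ℕ} :
    p ∈ aps N W ↔ (p.1 ∈ W ∧ 1 ≤ p.2 ∧ p.2 ≤ N) ∧ p.1 + p.2 ∈ W ∧ p.1 + 2 * p.2 ∈ W := by
  unfold aps
  rw [mem_filter, mem_product, mem_Icc]

theorem aps_le_tr (N : ℕ) (W : Finset ℕ) : (aps N W).card ≤ (tr H W).card := by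
  refine card_le_card_of_injOn (fun p => (p.1, p.1 + p.2, p.1 + 2 * p.2)) ?_ ?_
  · intro p hp
    have hp' : p ∈ aps N W := hp
    rw [mem_aps] at hp'
    show (p.1, p.1 + p.2, p.1 + 2 * p.2) ∈ tr H W
    rw [mem_tr]
    refine ⟨⟨hp'.1.1, hp'.2.1, hp'.2.2⟩, ?_⟩
    unfold H
    have := hp'.1.2.1
    simp only
    omega
  · intro p _ q _ h
    simp only [Prod.mk.injEq] at h
    exact Prod.ext h.1 (by omega)

/-- a set with few progressions is not much larger than a set without progressions -/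
theorem card_le_r_add {M : ℕ} {B : Finset ℕ} (hB : B ⊆ range M) :
    B.card ≤ r 3 M + (aps M B).card := by
  classical
  set B' := B \ (aps M B).image Prod.fst with hB'
  have h1 : B.card ≤ B'.card + ((aps M B).image Prod.fst).card := by
    have := card_sdiff_add_card B ((aps M B).image Prod.fst)
    rw [← hB'] at this
    have h2 : B ⊆ B ∪ (aps M B).image Prod.fst := subset_union_left
    have h3 := card_le_card h2
    omega
  have h2 : ((aps M B).image Prod.fst).card ≤ (aps M B).card := card_image_le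
  have h3 : B'.card ≤ r 3 M := by
    have e : (B'.image fun j => j + 1).card = B'.card :=
      card_image_of_injective _ (fun a b h => by simpa using h)
    rw [← e]
    refine card_le_r ?_ ?_
    · intro x hx
      rw [mem_image] at hx
      obtain ⟨j, hj, rfl⟩ := hx
      have := hB (mem_sdiff.1 hj).1
      rw [mem_range] at this
      rw [mem_Icc]; omega
    · intro a d hd h
      have g : ∀ i < 3, ∃ j ∈ B', j + 1 = a + i * d := by
        intro i hi
        have := h i hi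
        rw [mem_image] at this
        exact this
      obtain ⟨x, hx, hx'⟩ := g 0 (by norm_num)
      obtain ⟨y, hy, hy'⟩ := g 1 (by norm_num)
      obtain ⟨z, hz, hz'⟩ := g 2 (by norm_num)
      have hx2 := mem_sdiff.1 hx
      have hy2 := mem_sdiff.1 hy
      have hz2 := mem_sdiff.1 hz
      apply hx2.2
      rw [mem_image]
      refine ⟨(x, d), ?_, rfl⟩
      rw [mem_aps]
      have hzM := mem_range.1 (hB hz2.1)
      have e1 : x + d = y := by omega
      have e2 : x + 2 * d = z := by omega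
      simp only
      rw [e1, e2]
      exact ⟨⟨hx2.1, hd, by omega⟩, hy2.1, hz2.1⟩
  omega

theorem card_primeFactors_le {d N : ℕ} (hd : 1 ≤ d) (hN : d ≤ N) :
    d.primeFactors.card ≤ Nat.log 2 N := by
  have h1 : 2 ^ d.primeFactors.card ≤ ∏ p ∈ d.primeFactors, p := by
    rw [← prod_const]
    exact prod_le_prod' fun p hp => (Nat.prime_of_mem_primeFactors hp).two_le
  have h2 : ∏ p ∈ d.primeFactors, p ≤ d := Nat.le_of_dvd (by omega) (Nat.prod_primeFactors_dvd d)
  refine (Nat.le_log_of_pow_le (by norm_num) (h1.trans h2)).trans ?_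
  exact Nat.log_mono_right hN

/-- the primes up to `Q` -/
def Pr (Q : ℕ) : Finset ℕ := (range (Q + 1)).filter Nat.Prime

theorem Pr_card (Q : ℕ) : (Pr Q).card = Nat.primeCounting Q := by
  unfold Pr
  rw [Nat.primeCounting, Nat.primeCounting', Nat.count_eq_card_filter_range]

/-- the indices of the elements of `W` (moved by `K`) in a progression -/
def hit (W : Finset ℕ) (K M c q : ℕ) : Finset ℕ := (range M).filter fun j => c + q * j - K ∈ W

theorem mem_hit {W : Finset ℕ} {K M c q j : ℕ} :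
    j ∈ hit W K M c q ↔ j < M ∧ c + q * j - K ∈ W := by
  unfold hit
  rw [mem_filter, mem_range]

theorem sum_hit {W : Finset ℕ} {N K M q : ℕ} (hW : W ⊆ Icc 1 N) (hq : q * M ≤ K) :
    M * W.card ≤ ∑ c ∈ Icc 1 (N + K), (hit W K M c q).card := by
  rw [← card_sigma]
  have e : M * W.card = (W ×ˢ range M).card := by rw [card_product, card_range, mul_comm]
  rw [e]
  refine card_le_card_of_injOn (fun p => ⟨p.1 + K - q * p.2, p.2⟩) ?_ ?_
  · intro p hp
    have hp' : p ∈ W ×ˢ range M := hp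
    rw [mem_product, mem_range] at hp'
    have h1 := hW hp'.1
    rw [mem_Icc] at h1
    have h2 : q * p.2 ≤ q * M := Nat.mul_le_mul_left _ hp'.2.le
    show (⟨p.1 + K - q * p.2, p.2⟩ : Σ _ : ℕ, ℕ) ∈ (Icc 1 (N + K)).sigma fun c => hit W K M c q
    rw [mem_sigma, mem_Icc, mem_hit]
    refine ⟨⟨by simp only; omega, by simp only; omega⟩, hp'.2, ?_⟩
    have e2 : p.1 + K - q * p.2 + q * p.2 - K = p.1 := by omega
    simp only
    rw [e2]
    exact hp'.1
  · intro p hp p' hp' h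
    have h1 : p ∈ W ×ˢ range M := hp
    have h2 : p' ∈ W ×ˢ range M := hp'
    rw [mem_product, mem_range] at h1 h2
    simp only [Sigma.mk.injEq, heq_eq_eq] at h
    have h3 : q * p.2 ≤ q * M := Nat.mul_le_mul_left _ h1.2.le
    have h4 : q * p'.2 ≤ q * M := Nat.mul_le_mul_left _ h2.2.le
    have h5 := h.2
    rw [h5] at h
    refine Prod.ext ?_ h5
    rw [h5] at h3
    omega

/-- progressions in progressions -/
theorem sum_aps {W : Finset ℕ} {N K M Q : ℕ} (hW : W ⊆ Icc 1 N) :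
    ∑ q ∈ Pr Q, ∑ c ∈ Icc 1 (N + K), (aps M (hit W K M c q)).card ≤
      (aps N W).card * (Nat.log 2 N * M) := by
  classical
  have h1 : ∑ q ∈ Pr Q, ∑ c ∈ Icc 1 (N + K), (aps M (hit W K M c q)).card =
      ((Pr Q ×ˢ Icc 1 (N + K)).sigma fun p => aps M (hit W K M p.2 p.1)).card := by
    rw [card_sigma, sum_product]
  have h2 : ((aps N W).sigma fun p => p.2.primeFactors ×ˢ range M).card ≤
      (aps N W).card * (Nat.log 2 N * M) := by
    rw [card_sigma, ← smul_eq_mul, ← sum_const]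
    refine sum_le_sum fun p hp => ?_
    rw [card_product, card_range]
    rw [mem_aps] at hp
    exact Nat.mul_le_mul_right _ (card_primeFactors_le hp.1.2.1 hp.1.2.2)
  rw [h1]
  refine le_trans ?_ h2
  refine card_le_card_of_injOn
    (fun s => ⟨(s.1.2 + s.1.1 * s.2.1 - K, s.1.1 * s.2.2), (s.1.1, s.2.1)⟩) ?_ ?_
  · rintro ⟨⟨q, c⟩, ⟨j, t⟩⟩ hs
    have hs' : (⟨(q, c), (j, t)⟩ : Σ _ : ℕ × ℕ, ℕ × ℕ) ∈
        (Pr Q ×ˢ Icc 1 (N + K)).sigma fun p => aps M (hit W K M p.2 p.1) := hs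
    rw [mem_sigma, mem_product] at hs'
    simp only at hs'
    obtain ⟨⟨hq, hc⟩, hjt⟩ := hs'
    rw [mem_aps, mem_hit, mem_hit, mem_hit] at hjt
    simp only at hjt
    obtain ⟨⟨⟨hjM, hj⟩, ht1, htM⟩, ⟨hj1M, hj1⟩, hj2M, hj2⟩ := hjt
    have hqp : q.Prime := by
      unfold Pr at hq
      exact (mem_filter.1 hq).2
    have hq1 : 1 ≤ q := hqp.one_lt.le
    have g1 := mem_Icc.1 (hW hj)
    have g2 := mem_Icc.1 (hW hj2)
    have e1 : c + q * (j + t) = c + q * j + q * t := by ring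
    have e2 : c + q * (j + 2 * t) = c + q * j + 2 * (q * t) := by ring
    rw [e1] at hj1
    rw [e2] at hj2 g2
    have hqt : 1 ≤ q * t := Nat.mul_pos hq1 ht1
    show (⟨(c + q * j - K, q * t), (q, j)⟩ : Σ _ : ℕ × ℕ, ℕ × ℕ) ∈
      (aps N W).sigma fun p => p.2.primeFactors ×ˢ range M
    rw [mem_sigma, mem_product, mem_aps, mem_range, Nat.mem_primeFactors]
    simp only
    refine ⟨⟨⟨hj, hqt, by omega⟩, ?_, ?_⟩, ⟨hqp, Dvd.intro _ rfl, by omega⟩, hjM⟩
    · have : c + q * j - K + q * t = c + q * j + q * t - K := by omega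
      rw [this]; exact hj1
    · have : c + q * j - K + 2 * (q * t) = c + q * j + 2 * (q * t) - K := by omega
      rw [this]; exact hj2
  · rintro ⟨⟨q, c⟩, ⟨j, t⟩⟩ hs ⟨⟨q', c'⟩, ⟨j', t'⟩⟩ hs' h
    have hs1 : (⟨(q, c), (j, t)⟩ : Σ _ : ℕ × ℕ, ℕ × ℕ) ∈
        (Pr Q ×ˢ Icc 1 (N + K)).sigma fun p => aps M (hit W K M p.2 p.1) := hs
    have hs2 : (⟨(q', c'), (j', t')⟩ : Σ _ : ℕ × ℕ, ℕ × ℕ) ∈
        (Pr Q ×ˢ Icc 1 (N + K)).sigma fun p => aps M (hit W K M p.2 p.1) := hs'
    rw [mem_sigma, mem_product] at hs1 hs2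
    simp only at hs1 hs2
    simp only [Sigma.mk.injEq, Prod.mk.injEq, heq_eq_eq] at h
    obtain ⟨⟨h1, h2⟩, h3, h4⟩ := h
    subst h3 h4
    have hq1 : 0 < q := by
      have := hs1.1.1
      unfold Pr at this
      exact (mem_filter.1 this).2.pos
    have ht : t = t' := Nat.eq_of_mul_eq_mul_left hq1 h2
    subst ht
    have a1 := hs1.2
    have a2 := hs2.2
    rw [mem_aps, mem_hit] at a1 a2
    simp only at a1 a2
    have b1 := mem_Icc.1 (hW a1.1.1.2)
    have b2 := mem_Icc.1 (hW a2.1.1.2)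
    have hc : c = c' := by omega
    subst hc
    rfl

/-- **Supersaturation.** -/
theorem supersat {W : Finset ℕ} {N K M Q : ℕ} (hW : W ⊆ Icc 1 N) (hQ : Q * M ≤ K) :
    (Nat.primeCounting Q : ℝ) * (M * W.card - (N + K) * r 3 M) ≤
      (aps N W).card * (Nat.log 2 N * M) := by
  have h1 : ∑ q ∈ Pr Q, ∑ c ∈ Icc 1 (N + K), ((hit W K M c q).card : ℝ) ≤
      ∑ q ∈ Pr Q, ∑ c ∈ Icc 1 (N + K), ((r 3 M : ℝ) + (aps M (hit W K M c q)).card) := by
    refine sum_le_sum fun q _ => sum_le_sum fun c _ => ?_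
    exact_mod_cast card_le_r_add (filter_subset _ _)
  have h2 : ∑ q ∈ Pr Q, ∑ c ∈ Icc 1 (N + K), ((r 3 M : ℝ) + (aps M (hit W K M c q)).card) =
      (Pr Q).card * ((N + K) * r 3 M) +
        ∑ q ∈ Pr Q, ∑ c ∈ Icc 1 (N + K), ((aps M (hit W K M c q)).card : ℝ) := by
    simp only [sum_add_distrib, sum_const, nsmul_eq_mul, Nat.card_Icc]
    push_cast
    simp
  have h3 : ∑ q ∈ Pr Q, ((M : ℝ) * W.card) ≤
      ∑ q ∈ Pr Q, ∑ c ∈ Icc 1 (N + K), ((hit W K M c q).card : ℝ) := by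
    refine sum_le_sum fun q hq => ?_
    have hq1 : q ≤ Q := by
      unfold Pr at hq
      have := (mem_filter.1 hq).1
      rw [mem_range] at this
      omega
    exact_mod_cast sum_hit hW ((Nat.mul_le_mul_right M hq1).trans hQ)
  rw [sum_const, nsmul_eq_mul] at h3
  have h4 : ∑ q ∈ Pr Q, ∑ c ∈ Icc 1 (N + K), ((aps M (hit W K M c q)).card : ℝ) ≤
      (aps N W).card * (Nat.log 2 N * M) := by exact_mod_cast sum_aps (Q := Q) (M := M) (K := K) hW
  rw [← Pr_card]
  have h5 := h3.trans (h1.trans (le_of_eq h2))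
  have e : ((Pr Q).card : ℝ) * (M * W.card - (N + K) * r 3 M) =
      (Pr Q).card * (M * W.card) - (Pr Q).card * ((N + K) * r 3 M) := by ring
  rw [e]
  linarith

end Pool.Agent.Run7.h918.AP
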