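import Mathlib
import Pool.Agent.Run7.h918.AP.Sup
import Pool.Agent.Run7.h918.AP.Reg

/-!
# Containers for the sets without three-term progressions at regular scales
-/

set_option autoImplicit false

namespace Pool.Agent.Run7.h918.AP

open Finset Pool.Agent.H617R3.AP

theorem pi_large : ∃ Q₀ : ℕ, 1 ≤ Q₀ ∧ ∀ Q : ℕ, Q₀ ≤ Q → √(Q : ℝ) ≤ Nat.primeCounting Q := by
  refine ⟨2 ^ 20, by norm_num, fun Q hQ => ?_⟩
  have hQr : ((2 : ℝ) ^ 20) ≤ Q := by exact_mod_cast hQ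
  have hQ0 : (0 : ℝ) < Q := lt_of_lt_of_le (by positivity) hQr
  refine le_trans ?_ (Chebyshev.pi_ge Q)
  set a : ℝ := √(√(Q : ℝ)) with ha
  have ha2 : a ^ 2 = √(Q : ℝ) := Real.sq_sqrt (Real.sqrt_nonneg _)
  have ha4 : a ^ 4 = Q := by
    have : a ^ 4 = (a ^ 2) ^ 2 := by ring
    rw [this, ha2, Real.sq_sqrt hQ0.le]
  have ha32 : 32 ≤ a := by
    have h1 : (2 : ℝ) ^ 10 ≤ √(Q : ℝ) := by
      apply Real.le_sqrt_of_sq_le
      norm_num at hQr ⊢
      exact hQr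
    apply Real.le_sqrt_of_sq_le
    norm_num at h1 ⊢
    exact h1
  have hlog : Real.log Q ≤ 4 * a := by
    rw [← ha4, Real.log_pow]
    have := Real.log_le_sub_one_of_pos (show (0 : ℝ) < a by linarith)
    push_cast
    linarith
  have hlogpos : 0 < Real.log Q := Real.log_pos (by linarith [hQr, show (1 : ℝ) < 2 ^ 20 by norm_num])
  have hlog1 : Real.log (Q + 1) ≤ 4 * a + 1 := by
    have h1 : Real.log ((Q : ℝ) + 1) ≤ Real.log (Q * 2) := by
      apply Real.log_le_log (by linarith)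
      linarith [show (1 : ℝ) ≤ 2 ^ 20 by norm_num]
    rw [Real.log_mul hQ0.ne' (by norm_num)] at h1
    have := Real.log_two_lt_d9
    linarith
  rw [le_div_iff₀ hlogpos, ← ha2]
  have h2 := Real.log_two_gt_d9
  have h3 : a ^ 2 * Real.log Q ≤ 4 * a ^ 3 := by
    have : a ^ 2 * Real.log Q ≤ a ^ 2 * (4 * a) := mul_le_mul_of_nonneg_left hlog (by positivity)
    nlinarith
  have h4 : 4 * a ^ 3 + (4 * a + 1) ≤ (Q : ℝ) * Real.log 2 := by
    rw [← ha4]
    have h5 : a ^ 4 * 0.6931471803 ≤ a ^ 4 * Real.log 2 :=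
      mul_le_mul_of_nonneg_left (by linarith) (by positivity)
    have h6 : 32 * a ^ 3 ≤ a ^ 4 := by
      have : a ^ 4 = a * a ^ 3 := by ring
      rw [this]
      exact mul_le_mul_of_nonneg_right ha32 (by positivity)
    have h7 : a ≤ a ^ 3 := by nlinarith [sq_nonneg a, sq_nonneg (a - 1)]
    nlinarith
  linarith

/-- the threshold -/
noncomputable def thr (τ : ℝ) (s N y : ℕ) : ℝ := (1 + τ) * (1 + 1 / s) * (N * d 3 (2 ^ y))

theorem sup_y {τ : ℝ} (hτ : 0 < τ) (hτ1 : τ ≤ 1) {s N y : ℕ} (hs : 1 ≤ s) 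
    {W : Finset ℕ} (hW : W ⊆ Icc 1 N) (h : thr τ s N y ≤ W.card) :
    (Nat.primeCounting (N / (2 ^ y * s)) : ℝ) * (τ / 2) * W.card ≤
      (aps N W).card * (Nat.log 2 N : ℝ) := by
  have hM0 : (0 : ℝ) < ((2 ^ y : ℕ) : ℝ) := by positivity
  have hs0 : (0 : ℝ) < s := by exact_mod_cast hs
  set M : ℕ := 2 ^ y with hM
  set Q := N / (M * s) with hQ
  have h1 := supersat (Q := Q) (M := M) (K := Q * M) hW le_rfl
  have hK : ((Q * M : ℕ) : ℝ) ≤ (N : ℝ) / s := by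
    rw [le_div_iff₀ hs0]
    have : Q * M * s ≤ N := by
      have := Nat.div_mul_le_self N (M * s)
      rw [← hQ] at this
      calc Q * M * s = Q * (M * s) := by ring
        _ ≤ N := this
    exact_mod_cast this
  have hr : (r 3 M : ℝ) = M * d 3 M := by
    unfold d; field_simp
  have hd0 : 0 ≤ d 3 M := (d_pos le_rfl (by rw [hM]; exact Nat.one_le_two_pow)).le
  have h2 : ((N : ℝ) + ((Q * M : ℕ) : ℝ)) * r 3 M ≤ M * W.card / (1 + τ) := by
    rw [hr, le_div_iff₀ (by linarith)]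
    calc ((N : ℝ) + ((Q * M : ℕ) : ℝ)) * (M * d 3 M) * (1 + τ)
        ≤ ((N : ℝ) + N / s) * (M * d 3 M) * (1 + τ) := by
          apply mul_le_mul_of_nonneg_right _ (by linarith)
          apply mul_le_mul_of_nonneg_right _ (by positivity)
          linarith
      _ = M * thr τ s N y := by unfold thr; rw [← hM]; ring
      _ ≤ M * W.card := mul_le_mul_of_nonneg_left h hM0.le
  have h3 : (M : ℝ) * (τ / 2 * W.card) ≤ M * W.card - ((N : ℝ) + ((Q * M : ℕ) : ℝ)) * r 3 M := by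
    have hW0 : (0 : ℝ) ≤ W.card := Nat.cast_nonneg _
    have h4 : (M : ℝ) * W.card / (1 + τ) ≤ M * W.card - M * (τ / 2 * W.card) := by
      rw [div_le_iff₀ (by linarith)]
      have h5 : 0 ≤ (M : ℝ) * W.card := by positivity
      have h6 : 0 ≤ (M : ℝ) * W.card * (τ / 2 * (1 - τ)) :=
        mul_nonneg h5 (mul_nonneg (by linarith) (by linarith))
      nlinarith
    linarith
  have h5 : (Nat.primeCounting Q : ℝ) * (M * (τ / 2 * W.card)) ≤
      (aps N W).card * (Nat.log 2 N * M) :=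
    (mul_le_mul_of_nonneg_left h3 (Nat.cast_nonneg _)).trans h1
  have h6 : (M : ℝ) * ((Nat.primeCounting Q : ℝ) * (τ / 2) * W.card) ≤
      M * ((aps N W).card * (Nat.log 2 N : ℝ)) := by linarith
  exact le_of_mul_le_mul_left h6 hM0

/-- the density of triples -/
noncomputable def DD (τ : ℝ) (s N y : ℕ) : ℝ :=
  (Nat.primeCounting (N / (2 ^ y * s)) : ℝ) * τ / (12 * Nat.log 2 N)

theorem sup_tr {τ : ℝ} (hτ : 0 < τ) (hτ1 : τ ≤ 1) {s N y : ℕ} (hs : 1 ≤ s) (hN : 2 ≤ N)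
    {W : Finset ℕ} (hW : W ⊆ Icc 1 N) (h : thr τ s N y ≤ W.card) :
    6 * DD τ s N y * W.card ≤ ((aps N W).card : ℝ) := by
  have h1 := sup_y hτ hτ1 hs hW h
  have hL : (0 : ℝ) < Nat.log 2 N := by
    have : 0 < Nat.log 2 N := Nat.log_pos (by norm_num) hN
    exact_mod_cast this
  unfold DD
  have e : 6 * ((Nat.primeCounting (N / (2 ^ y * s)) : ℝ) * τ / (12 * Nat.log 2 N)) * W.card =
      (Nat.primeCounting (N / (2 ^ y * s)) : ℝ) * (τ / 2) * W.card / Nat.log 2 N := by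
    field_simp; ring
  rw [e, div_le_iff₀ hL]
  exact h1

/-- lower bound for the density of triples -/
theorem DD_low {Q₀ : ℕ} (hQ₀ : ∀ Q : ℕ, Q₀ ≤ Q → √(Q : ℝ) ≤ Nat.primeCounting Q) {τ : ℝ}
    (hτ : 0 < τ) {s N y u : ℕ} (hs : 1 ≤ s) (hN : 2 ≤ N) (hyu : y + u = Nat.log 2 N)
    (hu : 2 * s * (Q₀ + 1) ≤ 2 ^ u) :
    τ / (24 * s * Nat.log 2 N) * Real.exp (Real.log 2 / 2 * u) ≤ DD τ s N y := by
  set Q := N / (2 ^ y * s) with hQ
  have hs0 : (0 : ℝ) < s := by exact_mod_cast hs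
  have hs1 : (1 : ℝ) ≤ s := by exact_mod_cast hs
  have hL : (0 : ℝ) < Nat.log 2 N := by
    have : 0 < Nat.log 2 N := Nat.log_pos (by norm_num) hN
    exact_mod_cast this
  have h1 : 2 ^ u ≤ 2 * s * Q := by
    have h2 : 2 ^ Nat.log 2 N ≤ N := Nat.pow_log_le_self 2 (by omega)
    rw [← hyu, pow_add] at h2
    have h3 : N < 2 ^ y * s * (Q + 1) := by
      rw [hQ]; exact Nat.lt_mul_div_succ N (by positivity)
    have h4 : 2 ^ y * 2 ^ u < 2 ^ y * (s * (Q + 1)) := by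
      calc 2 ^ y * 2 ^ u ≤ N := h2
        _ < 2 ^ y * s * (Q + 1) := h3
        _ = 2 ^ y * (s * (Q + 1)) := by ring
    have h5 : 2 ^ u < s * (Q + 1) := Nat.lt_of_mul_lt_mul_left h4
    have h6 : 2 * s ≤ 2 ^ u := by
      refine le_trans ?_ hu
      exact Nat.le_mul_of_pos_right _ (by omega)
    have h7 : s * (Q + 1) = s * Q + s := by ring
    have h8 : 2 * s * Q = 2 * (s * Q) := by ring
    omega
  have hQQ : Q₀ ≤ Q := by
    have h2 : 2 * s * (Q₀ + 1) ≤ 2 * s * Q := hu.trans h1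
    have := Nat.le_of_mul_le_mul_left h2 (by positivity)
    omega
  have h2 := hQ₀ Q hQQ
  have h3 : Real.exp (Real.log 2 / 2 * u) / (2 * s) ≤ √(Q : ℝ) := by
    apply Real.le_sqrt_of_sq_le
    have e : Real.exp (Real.log 2 / 2 * u) ^ 2 = (2 : ℝ) ^ u := by
      rw [← Real.exp_nat_mul, show ((2 : ℕ) : ℝ) * (Real.log 2 / 2 * u) = (u : ℝ) * Real.log 2 by
        push_cast; ring, Real.exp_nat_mul, Real.exp_log (by norm_num)]
    rw [div_pow, e, div_le_iff₀ (by positivity)]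
    have h4 : (2 : ℝ) ^ u ≤ 2 * s * Q := by exact_mod_cast h1
    have hQ0 : (0 : ℝ) ≤ Q := Nat.cast_nonneg _
    nlinarith [mul_nonneg hQ0 hs0.le, mul_nonneg (mul_nonneg hQ0 hs0.le) (sub_nonneg.2 hs1)]
  unfold DD
  rw [← hQ]
  calc τ / (24 * s * Nat.log 2 N) * Real.exp (Real.log 2 / 2 * u)
      = (Real.exp (Real.log 2 / 2 * u) / (2 * s)) * τ / (12 * Nat.log 2 N) := by
        field_simp; ring
    _ ≤ (Nat.primeCounting Q : ℝ) * τ / (12 * Nat.log 2 N) := by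
        apply div_le_div_of_nonneg_right _ (by positivity)
        exact mul_le_mul_of_nonneg_right (h3.trans h2) hτ.le

end Pool.Agent.Run7.h918.AP
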