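import Mathlib
import Pool.Agent.Run7.h918.AP.Cont

/-!
# The container theorem at regular scales
-/

set_option autoImplicit false

namespace Pool.Agent.Run7.h918.AP

open Finset Pool.Agent.H617R3.AP

theorem r_one : (1 : ℝ) ≤ r 3 1 := by
  have h : ({1} : Finset ℕ).card ≤ r 3 1 := by
    refine card_le_r (by simp) ?_
    intro a d hd h
    have h0 := h 0 (by norm_num)
    have h1 := h 1 (by norm_num)
    simp only [mem_singleton] at h0 h1
    omega
  rw [card_singleton] at h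
  exact_mod_cast h

theorem phases {τ : ℝ} (hτ : 0 < τ) (hτ1 : τ ≤ 1) {s N z : ℕ} (hs : 1 ≤ s) (hN : 2 ≤ N)
    {M t : ℝ} (ht : 0 ≤ t) (hM : thr τ s N z ≤ M)
    (hD : ∀ y, y + 1 ≤ z → 1 ≤ DD τ s N (y + 1) ∧ 4 * thr τ s N y / √(DD τ s N (y + 1)) ≤ t) :
    ∀ j ≤ z, ∀ W ⊆ Icc 1 N, ((W.card : ℕ) : ℝ) ≤ thr τ s N (z - j) →
      Cov H M (Icc 1 N) W (fun _ _ => False) (j * t) := by
  have hthr : ∀ y, 0 ≤ thr τ s N y := by
    intro y
    unfold thr
    have : 0 ≤ d 3 (2 ^ y) := (d_pos le_rfl Nat.one_le_two_pow).le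
    positivity
  intro j
  induction j with
  | zero =>
    intro _ W hW hc
    refine ⟨fun _ => W, fun _ => ⟨hW, ?_⟩, fun S hS _ _ => ⟨∅, empty_subset _, by simp, ?_⟩⟩
    · exact hc.trans (by simpa using hM)
    · exact hS.trans subset_union_right
  | succ j ih =>
    intro hj W hW hc
    obtain ⟨y, hy⟩ : ∃ y, y + 1 = z - j := ⟨z - (j + 1), by omega⟩
    have hy2 : z - (j + 1) = y := by omega
    rw [hy2] at hc
    obtain ⟨h1, h2⟩ := hD y (by omega)
    have h3 := phase (H := H) H_swap H_cyc H_irr (U₀ := Icc 1 N) (H_cod _) (M := M)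
      (D := DD τ s N (y + 1)) (m₀ := thr τ s N (y + 1)) (b := j * t)
      ((hthr z).trans hM) h1 (by positivity) (hthr _)
      (fun W hW hlt => (sup_tr hτ hτ1 hs hN hW hlt.le).trans (by exact_mod_cast aps_le_tr N W))
      (fun W hW hle => ih (by omega) W hW (by rw [← hy]; exact hle)) W hW
    refine h3.mono ?_
    have h4 : 4 * (W.card : ℝ) / √(DD τ s N (y + 1)) ≤ t := by
      refine le_trans ?_ h2
      apply div_le_div_of_nonneg_right _ (Real.sqrt_nonneg _)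
      linarith
    push_cast
    linarith

theorem thr_zero {τ : ℝ} (hτ : 0 < τ) {s N : ℕ} (hs : 1 ≤ s) : (N : ℝ) ≤ thr τ s N 0 := by
  unfold thr
  have hs0 : (0 : ℝ) < s := by exact_mod_cast hs
  have h1 : (1 : ℝ) ≤ d 3 (2 ^ 0) := by
    unfold d
    simpa using r_one
  have hN0 : (0 : ℝ) ≤ N := Nat.cast_nonneg _
  have h2 : (N : ℝ) ≤ N * d 3 (2 ^ 0) := le_mul_of_one_le_right hN0 h1
  have h3 : (1 : ℝ) ≤ (1 + τ) * (1 + 1 / s) := by
    have : 0 ≤ 1 / (s : ℝ) := by positivity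
    nlinarith
  calc (N : ℝ) ≤ N * d 3 (2 ^ 0) := h2
    _ ≤ (1 + τ) * (1 + 1 / s) * (N * d 3 (2 ^ 0)) := le_mul_of_one_le_left (by positivity) h3

/-- at a regular scale the density in the window -/
theorem window {N x h t : ℕ} {η : ℝ} (hN : 1 ≤ N) (hx : x = Nat.log 2 N) (hhx : h ≤ x)
    (hth : t ≤ h) (hg : F (x - h) - F (x + (t + 1)) ≤ η) :
    d 3 (2 ^ (x - h)) ≤ Real.exp η * (1 + 1 / 2 ^ t) * d 3 N := by
  have h1 : (2 : ℝ) ^ t * 2 ^ (x - h) ≤ N := by
    have h2 : 2 ^ t * 2 ^ (x - h) ≤ N := by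
      rw [← pow_add]
      refine le_trans (Nat.pow_le_pow_right (by norm_num) (by omega : t + (x - h) ≤ x)) ?_
      rw [hx]
      exact Nat.pow_log_le_self 2 (by omega)
    exact_mod_cast h2
  have h3 : (2 : ℝ) ^ t * N ≤ 2 ^ (x - h + (h + (t + 1))) := by
    have h4 : 2 ^ t * N ≤ 2 ^ (x - h + (h + (t + 1))) := by
      have h5 : N ≤ 2 ^ (x + 1) := by
        rw [hx]; exact (Nat.lt_pow_succ_log_self (by norm_num) N).le
      have e : x - h + (h + (t + 1)) = t + (x + 1) := by omega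
      rw [e, pow_add]
      exact Nat.mul_le_mul_left _ h5
    exact_mod_cast h4
  have e : x - h + (h + (t + 1)) = x + (t + 1) := by omega
  refine (compare (k := 3) le_rfl (T := 2 ^ t) (one_le_pow₀ (by norm_num)) ?_ h1 h3).2
  unfold F at hg
  rw [e]
  exact hg

/-- thresholds compared to the size of the largest set -/
theorem thr_le {τ : ℝ} (hτ : 0 < τ) (hτ1 : τ ≤ 1 / 8) {s N x y : ℕ} (hs : 8 ≤ s) (hN : 1 ≤ N)
    (hG : G2 (1 / 12) x) (hd : d 3 (2 ^ x) ≤ 2 * d 3 N) (hy : y ≤ x) :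
    thr τ s N y ≤ 4 * r 3 N * Real.exp (1 / 12 * ((x : ℝ) - y)) := by
  have hs0 : (0 : ℝ) < s := by exact_mod_cast (by omega : 0 < s)
  have hs8 : (8 : ℝ) ≤ s := by exact_mod_cast hs
  have hN0 : (0 : ℝ) < N := by exact_mod_cast hN
  have h1 : d 3 (2 ^ y) ≤ d 3 (2 ^ x) * Real.exp (1 / 12 * ((x : ℝ) - y)) := by
    have h2 := hG y hy
    have p1 := d_pos (k := 3) le_rfl (N := 2 ^ y) Nat.one_le_two_pow
    have p2 := d_pos (k := 3) le_rfl (N := 2 ^ x) Nat.one_le_two_pow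
    have h3 : F y ≤ F x + 1 / 12 * ((x : ℝ) - y) := by linarith
    unfold F f at h3
    have h4 := Real.exp_le_exp.2 h3
    rwa [Real.exp_add, Real.exp_log p1, Real.exp_log p2] at h4
  have hE := Real.exp_pos (1 / 12 * ((x : ℝ) - y))
  have h2 : d 3 (2 ^ y) ≤ 2 * d 3 N * Real.exp (1 / 12 * ((x : ℝ) - y)) :=
    h1.trans (mul_le_mul_of_nonneg_right hd hE.le)
  have h3 : (1 + τ) * (1 + 1 / (s : ℝ)) ≤ 2 := by
    have : 1 / (s : ℝ) ≤ 1 / 8 := one_div_le_one_div_of_le (by norm_num) hs8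
    have h0 : 0 ≤ 1 / (s : ℝ) := by positivity
    nlinarith
  have hdN := (d_pos (k := 3) le_rfl hN).le
  have e : (r 3 N : ℝ) = N * d 3 N := by unfold d; field_simp
  unfold thr
  rw [e]
  calc (1 + τ) * (1 + 1 / (s : ℝ)) * (N * d 3 (2 ^ y))
      ≤ 2 * (N * (2 * d 3 N * Real.exp (1 / 12 * ((x : ℝ) - y)))) := by
        apply mul_le_mul h3 _ _ (by norm_num)
        · exact mul_le_mul_of_nonneg_left h2 hN0.le
        · have := (d_pos (k := 3) le_rfl (N := 2 ^ y) Nat.one_le_two_pow).le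
          positivity
    _ = _ := by ring

/-- the cost of one phase -/
theorem cost {τ R D u L : ℝ} {s : ℕ} (hτ : 0 < τ) (hs : 1 ≤ s) (hL : 1 ≤ L) (hR : 0 ≤ R)
    (hu : 0 ≤ u) {T : ℝ} (hT : T ≤ 4 * R * Real.exp (1 / 12 * (u + 1)))
    (hD : τ / (24 * s * L) * Real.exp (Real.log 2 / 2 * u) ≤ D) :
    4 * T / √D ≤ 32 * √(24 * s / τ) * L * Real.exp (-(u / 12)) * R := by
  have hs0 : (0 : ℝ) < s := by exact_mod_cast hs
  set a : ℝ := √(τ / (24 * s * L)) * Real.exp (Real.log 2 / 4 * u) with ha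
  have ha0 : 0 < a := by positivity
  have h1 : a ≤ √D := by
    apply Real.le_sqrt_of_sq_le
    refine le_trans (le_of_eq ?_) hD
    rw [ha, mul_pow, Real.sq_sqrt (by positivity), ← Real.exp_nat_mul]
    congr 2
    push_cast; ring
  have hsD : 0 < √D := lt_of_lt_of_le ha0 h1
  rw [div_le_iff₀ hsD]
  refine le_trans (b := 16 * R * Real.exp (1 / 12 * (u + 1))) (by linarith) ?_
  refine le_trans ?_ (mul_le_mul_of_nonneg_left h1 (by positivity))
  have h2 : √(24 * s / τ) * √(τ / (24 * s * L)) * L ≥ 1 := by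
    rw [← Real.sqrt_mul (by positivity)]
    have e : 24 * (s : ℝ) / τ * (τ / (24 * s * L)) = 1 / L := by field_simp
    rw [e]
    have h3 : 1 / L ≤ √(1 / L) := by
      apply Real.le_sqrt_of_sq_le
      have h4 : 1 / L ≤ 1 := by rw [div_le_one (by linarith)]; exact hL
      have h5 : 0 ≤ 1 / L := by positivity
      nlinarith
    have h6 : 1 / L * L = 1 := by field_simp
    have h7 : 1 / L * L ≤ √(1 / L) * L := mul_le_mul_of_nonneg_right h3 (by linarith)
    linarith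
  have h3 : Real.exp (1 / 12 * (u + 1)) ≤ 2 * (Real.exp (-(u / 12)) *
      Real.exp (Real.log 2 / 4 * u)) := by
    rw [← Real.exp_add]
    have h4 : (2 : ℝ) = Real.exp (Real.log 2) := (Real.exp_log (by norm_num)).symm
    have h5 : 2 * Real.exp (-(u / 12) + Real.log 2 / 4 * u) =
        Real.exp (Real.log 2 + (-(u / 12) + Real.log 2 / 4 * u)) := by
      rw [Real.exp_add (Real.log 2)]
      rw [Real.exp_log (by norm_num)]
    rw [h5]
    apply Real.exp_le_exp.2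
    have h6 := Real.log_two_gt_d9
    nlinarith
  have hE1 := Real.exp_pos (-(u / 12))
  have hE2 := Real.exp_pos (Real.log 2 / 4 * u)
  calc 16 * R * Real.exp (1 / 12 * (u + 1))
      ≤ 16 * R * (2 * (Real.exp (-(u / 12)) * Real.exp (Real.log 2 / 4 * u))) :=
        mul_le_mul_of_nonneg_left h3 (by positivity)
    _ = 32 * R * Real.exp (-(u / 12)) * Real.exp (Real.log 2 / 4 * u) * 1 := by ring
    _ ≤ 32 * R * Real.exp (-(u / 12)) * Real.exp (Real.log 2 / 4 * u) *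
        (√(24 * s / τ) * √(τ / (24 * s * L)) * L) :=
        mul_le_mul_of_nonneg_left h2 (by positivity)
    _ = 32 * √(24 * s / τ) * L * Real.exp (-(u / 12)) * R * a := by rw [ha]; ring

theorem exp_hh {m x : ℕ} (hx : 1 ≤ x) : Real.exp (-((hh (12 * m) x : ℝ) / 12)) ≤ 1 / (x : ℝ) ^ m := by
  have hx0 : (0 : ℝ) < x := by exact_mod_cast hx
  have e : -((hh (12 * m) x : ℝ) / 12) = -((m : ℝ) * ((Nat.log 2 x : ℝ) + 1)) := by
    unfold hh; push_cast; ring
  rw [e, Real.exp_neg, ← one_div]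
  apply one_div_le_one_div_of_le (by positivity)
  rw [Real.exp_nat_mul]
  apply pow_le_pow_left₀ hx0.le
  have h1 : (x : ℝ) ≤ 2 ^ (Nat.log 2 x + 1) := by
    exact_mod_cast (Nat.lt_pow_succ_log_self (by norm_num) x).le
  refine h1.trans ?_
  have h2 : Real.exp ((Nat.log 2 x : ℝ) + 1) = Real.exp 1 ^ (Nat.log 2 x + 1) := by
    rw [← Real.exp_nat_mul]; push_cast; ring_nf
  rw [h2]
  apply pow_le_pow_left₀ (by norm_num)
  have := Real.exp_one_gt_d9
  linarith

theorem two_pow_hh (m x : ℕ) : x ^ m ≤ 2 ^ hh m x := by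
  unfold hh
  rw [mul_comm, pow_mul]
  exact Nat.pow_le_pow_left (Nat.lt_pow_succ_log_self (by norm_num) x).le m

end Pool.Agent.Run7.h918.AP
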