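import Mathlib
import Pool.Agent.Run7.h918.AP.Main

/-!
# The container theorem and supersaturation at regular scales: choice of the parameters
-/

set_option autoImplicit false

namespace Pool.Agent.Run7.h918.AP

open Finset Pool.Agent.H617R3.AP

theorem eps_four {ε : ℝ} (h0 : 0 < ε) (h1 : ε ≤ 1) :
    (1 + ε / 8) * (1 + ε / 8) * ((1 + ε / 8) * (1 + ε / 8)) ≤ 1 + ε := by
  have h2 : (1 + ε / 8) * (1 + ε / 8) ≤ 1 + 17 / 64 * ε := by nlinarith
  have h3 : 0 ≤ (1 + ε / 8) * (1 + ε / 8) := by positivity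
  nlinarith

theorem eps_two {ε : ℝ} (h0 : 0 < ε) (h1 : ε ≤ 1) : (1 + ε / 8) * (1 + ε / 8) ≤ 2 := by
  nlinarith

theorem final_arith {ε n D D' s : ℝ} (h0 : 0 < ε) (h1 : ε ≤ 1) (hn : 0 ≤ n) (hD : 0 ≤ D)
    (hD' : 0 ≤ D') (hs : s ≤ ε / 8) (h : D' ≤ (1 + ε / 8) * (1 + ε / 8) * D) :
    (1 + ε / 8) * (1 + s) * (n * D') ≤ (1 + ε) * (n * D) := by
  have h2 : n * D' ≤ n * ((1 + ε / 8) * (1 + ε / 8) * D) := mul_le_mul_of_nonneg_left h hn
  have h3 : (1 + ε / 8) * (1 + s) ≤ (1 + ε / 8) * (1 + ε / 8) :=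
    mul_le_mul_of_nonneg_left (by linarith) (by linarith)
  calc (1 + ε / 8) * (1 + s) * (n * D') ≤ (1 + ε / 8) * (1 + ε / 8) *
        (n * ((1 + ε / 8) * (1 + ε / 8) * D)) :=
        mul_le_mul h3 h2 (mul_nonneg hn hD') (by positivity)
    _ = ((1 + ε / 8) * (1 + ε / 8) * ((1 + ε / 8) * (1 + ε / 8))) * (n * D) := by ring
    _ ≤ (1 + ε) * (n * D) :=
        mul_le_mul_of_nonneg_right (eps_four h0 h1) (mul_nonneg hn hD)

theorem dd_arith {τ s x E : ℝ} {K : ℕ} (hτ : 0 < τ) (hs : 0 < s) (hx : 1 ≤ x)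
    (h15 : 24 * s / τ ≤ x) (h12 : x ^ (6 * (K + 3)) ≤ E) : x ^ K ≤ τ / (24 * s * x) * E := by
  have h17 : 24 * s ≤ x * τ := by rwa [div_le_iff₀ hτ] at h15
  have h18 : x ^ (K + 2) ≤ x ^ (6 * (K + 3)) := pow_le_pow_right₀ hx (by omega)
  have hx0 : 0 < x := by linarith
  rw [div_mul_eq_mul_div, le_div_iff₀ (by positivity)]
  calc x ^ K * (24 * s * x) = 24 * s * (x ^ K * x) := by ring
    _ ≤ (x * τ) * (x ^ K * x) := mul_le_mul_of_nonneg_right h17 (by positivity)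
    _ = τ * x ^ (K + 2) := by ring
    _ ≤ τ * E := mul_le_mul_of_nonneg_left (h18.trans h12) hτ.le

theorem cost_arith {x C E R : ℝ} {K : ℕ} (hx : 1 ≤ x) (hC : C ≤ x) (hC0 : 0 ≤ C) (hE0 : 0 ≤ E)
    (hE : E ≤ 1 / x ^ (K + 3)) (hR : 0 ≤ R) {j : ℝ} (hj : j ≤ x) :
    j * (C * x * E * R) ≤ R / x ^ K := by
  have hx0 : 0 < x := by linarith
  calc j * (C * x * E * R) ≤ x * (C * x * E * R) :=
        mul_le_mul_of_nonneg_right hj (by positivity)
    _ ≤ x * (x * x * (1 / x ^ (K + 3)) * R) := by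
        apply mul_le_mul_of_nonneg_left _ hx0.le
        apply mul_le_mul_of_nonneg_right _ hR
        apply mul_le_mul _ hE hE0 (by positivity)
        exact mul_le_mul_of_nonneg_right hC hx0.le
    _ = R / x ^ K := by
        rw [pow_add]
        field_simp

theorem exp_pow {x u m : ℕ} (h : x ^ (2 * m) ≤ 2 ^ u) :
    (x : ℝ) ^ m ≤ Real.exp (Real.log 2 / 2 * u) := by
  have e : Real.exp (Real.log 2 / 2 * u) ^ 2 = (2 : ℝ) ^ u := by
    rw [← Real.exp_nat_mul, show ((2 : ℕ) : ℝ) * (Real.log 2 / 2 * u) =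
      (u : ℝ) * Real.log 2 by push_cast; ring, Real.exp_nat_mul, Real.exp_log (by norm_num)]
  refine le_of_sq_le_sq ?_ (Real.exp_pos _).le
  rw [e, ← pow_mul, mul_comm m 2]
  exact_mod_cast h

theorem cover {ε : ℝ} (h0 : 0 < ε) (h1 : ε ≤ 1) (K : ℕ) : ∃ (m w x₀ : ℕ) (η : ℝ), 0 < η ∧
    ∀ N : ℕ, Nat.log 2 N ∉ Bd m w x₀ η →
      Cov H ((1 + ε) * r 3 N) (Icc 1 N) (Icc 1 N) (fun _ _ => False)
        (r 3 N / (Nat.log 2 N : ℝ) ^ K) ∧
      ∀ W ⊆ Icc 1 N, (1 + ε) * r 3 N ≤ ((W.card : ℕ) : ℝ) →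
        (Nat.log 2 N : ℝ) ^ K * W.card ≤ (aps N W).card := by
  obtain ⟨Q₀, -, hQ₀⟩ := pi_large
  obtain ⟨τ, hτd⟩ : ∃ τ : ℝ, τ = ε / 8 := ⟨_, rfl⟩
  have hτ : 0 < τ := by rw [hτd]; positivity
  have hτ8 : τ ≤ 1 / 8 := by rw [hτd]; linarith
  have hτ1 : τ ≤ 1 := by linarith
  obtain ⟨s, hsr⟩ : ∃ s : ℕ, 8 / ε ≤ s := ⟨⌈8 / ε⌉₊, Nat.le_ceil _⟩
  have h8 : 8 ≤ 8 / ε := by rw [le_div_iff₀ h0]; linarith
  have hs8 : 8 ≤ s := by
    have : (8 : ℝ) ≤ s := h8.trans hsr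
    exact_mod_cast this
  have hs : 1 ≤ s := by omega
  have hs0 : (0 : ℝ) < s := by exact_mod_cast hs
  obtain ⟨η, hη⟩ : ∃ η : ℝ, η = Real.log (1 + ε / 8) := ⟨_, rfl⟩
  have hη0 : 0 < η := by rw [hη]; exact Real.log_pos (by linarith)
  obtain ⟨C₂, hC₂⟩ : ∃ C₂ : ℝ, C₂ = 32 * √(24 * s / τ) := ⟨_, rfl⟩
  have hC₂0 : 0 ≤ C₂ := by rw [hC₂]; positivity
  obtain ⟨m, hm⟩ : ∃ m : ℕ, m = 12 * (K + 3) := ⟨_, rfl⟩
  obtain ⟨x₀, hx₀⟩ : ∃ x₀ : ℕ, 2 * s * (Q₀ + 1) + 2 ^ s + ⌈24 * s / τ⌉₊ + ⌈C₂⌉₊ + 2 ≤ x₀ :=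
    ⟨_, le_rfl⟩
  refine ⟨m, s + 1, x₀, η, hη0, fun N hbad => ?_⟩
  obtain ⟨x, hx⟩ : ∃ x : ℕ, x = Nat.log 2 N := ⟨_, rfl⟩
  rw [← hx] at hbad ⊢
  unfold Bd at hbad
  simp only [Set.mem_ofPred_eq, not_or, not_lt, not_not] at hbad
  obtain ⟨b1, hG, b3, b4⟩ := hbad
  have h2h : x ^ m ≤ 2 ^ hh m x := two_pow_hh m x
  obtain ⟨h, hh'⟩ : ∃ h : ℕ, h = hh m x := ⟨_, rfl⟩
  rw [← hh'] at b3 b4 h2h
  have key : ∀ a b c d x : ℕ, a + b + c + d + 2 ≤ x → a ≤ x ∧ b ≤ x ∧ c ≤ x ∧ d ≤ x ∧ 2 ≤ x := by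
    intro a b c d x h
    omega
  obtain ⟨k1, k2, k3, k4, k5⟩ := key _ _ _ _ _ (hx₀.trans b1)
  have hx1 : 1 ≤ x := by omega
  have hxr : (1 : ℝ) ≤ x := by exact_mod_cast hx1
  have hN2 : 2 ≤ N := by
    by_contra hcon
    have : Nat.log 2 N = 0 := by
      apply Nat.log_of_lt
      omega
    omega
  have hN1 : 1 ≤ N := by omega
  have hR : (0 : ℝ) < r 3 N := r_pos le_rfl hN1
  have hxm : x ≤ x ^ m := Nat.le_self_pow (by omega) x
  have hth : s ≤ h := by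
    have h5 : 2 ^ s ≤ 2 ^ h := k2.trans (hxm.trans h2h)
    exact (Nat.pow_le_pow_iff_right (by norm_num)).1 h5
  -- the window
  have hwin := window (N := N) (x := x) (h := h) (t := s) (η := η) hN1 hx b3 hth b4
  have hexp : Real.exp η = 1 + ε / 8 := by rw [hη, Real.exp_log (by linarith)]
  have h2s : (1 : ℝ) / 2 ^ s ≤ ε / 8 := by
    have h6 : (s : ℝ) ≤ 2 ^ s := by exact_mod_cast (Nat.lt_two_pow_self).le
    have h7 : (1 : ℝ) / 2 ^ s ≤ 1 / (8 / ε) := one_div_le_one_div_of_le (by positivity) (hsr.trans h6)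
    rwa [one_div_div] at h7
  have h1s : (1 : ℝ) / s ≤ ε / 8 := by
    have h7 : (1 : ℝ) / s ≤ 1 / (8 / ε) := one_div_le_one_div_of_le (by positivity) hsr
    rwa [one_div_div] at h7
  have hdN := d_pos (k := 3) le_rfl hN1
  rw [hexp] at hwin
  have hwin2 : d 3 (2 ^ (x - h)) ≤ (1 + ε / 8) * (1 + ε / 8) * d 3 N := by
    refine hwin.trans ?_
    apply mul_le_mul_of_nonneg_right _ hdN.le
    exact mul_le_mul_of_nonneg_left (by linarith) (by linarith)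
  have hdx : d 3 (2 ^ x) ≤ 2 * d 3 N := by
    have h9 : F x ≤ F (x - h) := F_anti (by omega)
    unfold F f at h9
    have h10 : d 3 (2 ^ x) ≤ d 3 (2 ^ (x - h)) :=
      (Real.log_le_log_iff (d_pos le_rfl Nat.one_le_two_pow) (d_pos le_rfl Nat.one_le_two_pow)).1 h9
    refine h10.trans (hwin2.trans ?_)
    exact mul_le_mul_of_nonneg_right (eps_two h0 h1) hdN.le
  have eR : (r 3 N : ℝ) = N * d 3 N := by
    have : (0 : ℝ) < N := by exact_mod_cast hN1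
    unfold d; field_simp
  have hfinal : thr τ s N (x - h) ≤ (1 + ε) * r 3 N := by
    unfold thr
    rw [eR, hτd]
    exact final_arith h0 h1 (Nat.cast_nonneg _) hdN.le (d_pos le_rfl Nat.one_le_two_pow).le h1s
      hwin2
  -- the density of triples
  have hDD : ∀ y u : ℕ, y + u = x → h ≤ u →
      τ / (24 * s * x) * Real.exp (Real.log 2 / 2 * u) ≤ DD τ s N y := by
    intro y u hyu hu
    rw [hx]
    refine DD_low hQ₀ hτ hs hN2 (hyu.trans hx) ?_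
    have h11 : 2 ^ h ≤ 2 ^ u := Nat.pow_le_pow_right (by norm_num) hu
    exact k1.trans (hxm.trans (h2h.trans h11))
  have h15 : 24 * (s : ℝ) / τ ≤ x := (Nat.le_ceil _).trans (by exact_mod_cast k3)
  have hDD1 : ∀ y u : ℕ, y + u = x → h ≤ u → (x : ℝ) ^ K ≤ DD τ s N y := by
    intro y u hyu hu
    refine le_trans ?_ (hDD y u hyu hu)
    refine dd_arith hτ hs0 hxr h15 (exp_pow ?_)
    have e2 : 2 * (6 * (K + 3)) = m := by rw [hm]; ring
    rw [e2]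
    exact h2h.trans (Nat.pow_le_pow_right (by norm_num) hu)
  have hxK : (1 : ℝ) ≤ (x : ℝ) ^ K := one_le_pow₀ hxr
  constructor
  · obtain ⟨t, ht⟩ : ∃ t : ℝ, t = C₂ * x * Real.exp (-(h / 12 : ℝ)) * r 3 N := ⟨_, rfl⟩
    have ht0 : 0 ≤ t := by rw [ht]; positivity
    have hph := phases hτ hτ1 (s := s) (N := N) (z := x - h) hs hN2 (M := (1 + ε) * r 3 N) ht0
      hfinal (by
        intro y hy
        obtain ⟨u, hu⟩ : ∃ u, y + 1 + u = x := ⟨x - (y + 1), by omega⟩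
        have hhu : h ≤ u := by omega
        refine ⟨hxK.trans (hDD1 (y + 1) u hu hhu), ?_⟩
        have hT := thr_le hτ hτ8 (s := s) (N := N) (x := x) (y := y) hs8 hN1 hG hdx (by omega)
        have e : (x : ℝ) - y = u + 1 := by
          have : (x : ℝ) = (y : ℝ) + 1 + u := by rw [← hu]; push_cast; ring
          linarith
        rw [e] at hT
        have hc := cost hτ hs hxr hR.le (Nat.cast_nonneg u) hT (hDD (y + 1) u hu hhu)
        refine hc.trans ?_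
        rw [ht, ← hC₂]
        have hhu' : (h : ℝ) ≤ u := by exact_mod_cast hhu
        have : Real.exp (-((u : ℝ) / 12)) ≤ Real.exp (-(h / 12 : ℝ)) := by
          apply Real.exp_le_exp.2
          linarith
        apply mul_le_mul_of_nonneg_right _ hR.le
        exact mul_le_mul_of_nonneg_left this (by positivity)) (x - h) le_rfl (Icc 1 N)
      (Subset.refl _) (by
        rw [Nat.sub_self, Nat.card_Icc]
        have := thr_zero hτ (s := s) (N := N) hs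
        simpa using this)
    refine hph.mono ?_
    rw [ht]
    have e1 : Real.exp (-(h / 12 : ℝ)) ≤ 1 / (x : ℝ) ^ (K + 3) := by
      rw [hh', hm]
      exact exp_hh hx1
    have hxC : C₂ ≤ x := by
      refine (Nat.le_ceil _).trans ?_
      exact_mod_cast k4
    have e2 : (((x - h : ℕ)) : ℝ) ≤ x := by exact_mod_cast Nat.sub_le _ _
    exact cost_arith hxr hxC hC₂0 (Real.exp_pos _).le e1 hR.le e2
  · intro W hW hc
    have h20 := sup_tr hτ hτ1 hs hN2 hW (hfinal.trans hc)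
    have h21 := hDD1 (x - h) h (by omega) le_rfl
    have hW0 : (0 : ℝ) ≤ W.card := Nat.cast_nonneg _
    have h22 : (x : ℝ) ^ K * W.card ≤ DD τ s N (x - h) * W.card :=
      mul_le_mul_of_nonneg_right h21 hW0
    have h23 : 0 ≤ DD τ s N (x - h) * W.card :=
      mul_nonneg (by linarith) hW0
    linarith

end Pool.Agent.Run7.h918.AP
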