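import Mathlib

/-!
# Families of containers: counting and random subsets
-/

set_option autoImplicit false

namespace Pool.Agent.Run7.h918.AP

open Finset

theorem small_card (N b : ℕ) :
    ((Icc 1 N).powerset.filter fun T => T.card ≤ b).card ≤ (N + 1) ^ b := by
  induction b with
  | zero =>
    rw [pow_zero, card_le_one]
    intro S hS T hT
    rw [mem_filter] at hS hT
    rw [card_eq_zero.1 (Nat.le_zero.1 hS.2), card_eq_zero.1 (Nat.le_zero.1 hT.2)]
  | succ b ih =>
    have h : ((Icc 1 N).powerset.filter fun T => T.card ≤ b + 1) ⊆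
        ((range (N + 1)) ×ˢ ((Icc 1 N).powerset.filter fun T => T.card ≤ b)).image
          (fun p => if p.1 = 0 then p.2 else insert p.1 p.2) := by
      intro T hT
      rw [mem_filter, mem_powerset] at hT
      rw [mem_image]
      rcases T.eq_empty_or_nonempty with h0 | ⟨a, ha⟩
      · refine ⟨(0, ∅), ?_, by simp [h0]⟩
        rw [mem_product, mem_range, mem_filter, mem_powerset]
        exact ⟨by simp, empty_subset _, by simp⟩
      · have ha' := mem_Icc.1 (hT.1 ha)
        refine ⟨(a, T.erase a), ?_, ?_⟩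
        · rw [mem_product, mem_range, mem_filter, mem_powerset]
          refine ⟨by simp only; omega, (erase_subset _ _).trans hT.1, ?_⟩
          simp only
          rw [card_erase_of_mem ha]
          omega
        · simp only
          rw [if_neg (by omega), insert_erase ha]
    calc ((Icc 1 N).powerset.filter fun T => T.card ≤ b + 1).card
        ≤ (((range (N + 1)) ×ˢ ((Icc 1 N).powerset.filter fun T => T.card ≤ b)).image
          (fun p => if p.1 = 0 then p.2 else insert p.1 p.2)).card := card_le_card h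
      _ ≤ ((range (N + 1)) ×ˢ ((Icc 1 N).powerset.filter fun T => T.card ≤ b)).card :=
          card_image_le
      _ ≤ (N + 1) * (N + 1) ^ b := by
          rw [card_product, card_range]
          exact Nat.mul_le_mul_left _ ih
      _ = (N + 1) ^ (b + 1) := by ring

/-- the probability of the set `S` if the elements of `U` are chosen independently with
probability `p` -/
noncomputable def wt (U : Finset ℕ) (p : ℝ) (S : Finset ℕ) : ℝ :=
  p ^ S.card * (1 - p) ^ (U.card - S.card)

theorem wt_nonneg {U : Finset ℕ} {p : ℝ} (h0 : 0 ≤ p) (h1 : p ≤ 1) (S : Finset ℕ) :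
    0 ≤ wt U p S := by
  unfold wt
  have : 0 ≤ 1 - p := by linarith
  positivity

/-- the generating function of the number of chosen elements of `C` -/
theorem gen {U C : Finset ℕ} (hC : C ⊆ U) (p z : ℝ) :
    ∑ S ∈ U.powerset, wt U p S * z ^ (S ∩ C).card = (p * z + (1 - p)) ^ C.card := by
  have h := prod_add (fun i => p * (if i ∈ C then z else 1)) (fun _ => 1 - p) U
  have h1 : ∏ i ∈ U, (p * (if i ∈ C then z else 1) + (1 - p)) = (p * z + (1 - p)) ^ C.card := by
    rw [← prod_sdiff hC]
    have e1 : ∏ i ∈ U \ C, (p * (if i ∈ C then z else 1) + (1 - p)) = 1 := by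
      apply prod_eq_one
      intro i hi
      rw [if_neg (mem_sdiff.1 hi).2]
      ring
    have e2 : ∏ i ∈ C, (p * (if i ∈ C then z else 1) + (1 - p)) = (p * z + (1 - p)) ^ C.card := by
      rw [← prod_const]
      apply prod_congr rfl
      intro i hi
      rw [if_pos hi]
    rw [e1, e2, one_mul]
  rw [← h1, h]
  apply sum_congr rfl
  intro S hS
  rw [mem_powerset] at hS
  rw [prod_const, card_sdiff_of_subset hS, prod_mul_distrib, prod_const]
  have e3 : ∏ i ∈ S, (if i ∈ C then z else (1 : ℝ)) = z ^ (S ∩ C).card := by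
    rw [prod_ite, prod_const, prod_const_one, mul_one, filter_mem_eq_inter]
  rw [e3]
  unfold wt
  ring

/-- upper tail -/
theorem upper_tail {U C : Finset ℕ} (hC : C ⊆ U) {p lam a R : ℝ} (h0 : 0 ≤ p) (h1 : p ≤ 1)
    (hl : 0 ≤ lam) (hl1 : lam ≤ 1) (hR : (C.card : ℝ) ≤ R) :
    ∑ S ∈ U.powerset.filter (fun S => a ≤ ((S ∩ C).card : ℝ)), wt U p S ≤
      Real.exp (p * (lam + lam ^ 2) * R - lam * a) := by
  have h2 : ∑ S ∈ U.powerset.filter (fun S => a ≤ ((S ∩ C).card : ℝ)), wt U p S ≤
      ∑ S ∈ U.powerset.filter (fun S => a ≤ ((S ∩ C).card : ℝ)),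
        Real.exp (-(lam * a)) * (wt U p S * Real.exp lam ^ (S ∩ C).card) := by
    refine sum_le_sum fun S hS => ?_
    rw [mem_filter] at hS
    have h3 : 1 ≤ Real.exp (-(lam * a)) * Real.exp lam ^ (S ∩ C).card := by
      rw [← Real.exp_nat_mul, ← Real.exp_add, Real.one_le_exp_iff]
      have := mul_le_mul_of_nonneg_left hS.2 hl
      linarith
    have h4 := wt_nonneg (U := U) h0 h1 S
    calc wt U p S = wt U p S * 1 := (mul_one _).symm
      _ ≤ wt U p S * (Real.exp (-(lam * a)) * Real.exp lam ^ (S ∩ C).card) :=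
          mul_le_mul_of_nonneg_left h3 h4
      _ = _ := by ring
  refine h2.trans ?_
  have h5 : ∑ S ∈ U.powerset.filter (fun S => a ≤ ((S ∩ C).card : ℝ)),
        Real.exp (-(lam * a)) * (wt U p S * Real.exp lam ^ (S ∩ C).card) ≤
      ∑ S ∈ U.powerset, Real.exp (-(lam * a)) * (wt U p S * Real.exp lam ^ (S ∩ C).card) := by
    refine sum_le_sum_of_subset_of_nonneg (filter_subset _ _) fun S _ _ => ?_
    have h4 := wt_nonneg (U := U) h0 h1 S
    positivity
  refine h5.trans ?_
  rw [← mul_sum, gen hC]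
  have h6 : p * Real.exp lam + (1 - p) ≤ Real.exp (p * (lam + lam ^ 2)) := by
    have h7 : Real.exp lam ≤ 1 + (lam + lam ^ 2) := by
      have := Real.abs_exp_sub_one_sub_id_le (x := lam) (by rw [abs_of_nonneg hl]; exact hl1)
      have := (abs_le.1 this).2
      linarith
    have h8 : p * Real.exp lam + (1 - p) ≤ p * (lam + lam ^ 2) + 1 := by nlinarith
    exact h8.trans (Real.add_one_le_exp _)
  have h9 : 0 ≤ p * Real.exp lam + (1 - p) := by
    have : 0 ≤ 1 - p := by linarith
    positivity
  calc Real.exp (-(lam * a)) * (p * Real.exp lam + (1 - p)) ^ C.card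
      ≤ Real.exp (-(lam * a)) * Real.exp (p * (lam + lam ^ 2)) ^ C.card :=
        mul_le_mul_of_nonneg_left (pow_le_pow_left₀ h9 h6 _) (Real.exp_pos _).le
    _ = Real.exp (-(lam * a) + C.card * (p * (lam + lam ^ 2))) := by
        rw [← Real.exp_nat_mul, ← Real.exp_add]
    _ ≤ _ := by
        apply Real.exp_le_exp.2
        have : (C.card : ℝ) * (p * (lam + lam ^ 2)) ≤ R * (p * (lam + lam ^ 2)) :=
          mul_le_mul_of_nonneg_right hR (by positivity)
        linarith

/-- lower tail -/
theorem lower_tail {U C : Finset ℕ} (hC : C ⊆ U) {p lam a : ℝ} (h0 : 0 ≤ p) (h1 : p ≤ 1)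
    (hl : 0 ≤ lam) (hl1 : lam ≤ 1) :
    ∑ S ∈ U.powerset.filter (fun S => ((S ∩ C).card : ℝ) ≤ a), wt U p S ≤
      Real.exp (lam * a - p * (lam - lam ^ 2) * C.card) := by
  have h2 : ∑ S ∈ U.powerset.filter (fun S => ((S ∩ C).card : ℝ) ≤ a), wt U p S ≤
      ∑ S ∈ U.powerset.filter (fun S => ((S ∩ C).card : ℝ) ≤ a),
        Real.exp (lam * a) * (wt U p S * Real.exp (-lam) ^ (S ∩ C).card) := by
    refine sum_le_sum fun S hS => ?_
    rw [mem_filter] at hS
    have h3 : 1 ≤ Real.exp (lam * a) * Real.exp (-lam) ^ (S ∩ C).card := by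
      rw [← Real.exp_nat_mul, ← Real.exp_add, Real.one_le_exp_iff]
      have := mul_le_mul_of_nonneg_left hS.2 hl
      linarith
    have h4 := wt_nonneg (U := U) h0 h1 S
    calc wt U p S = wt U p S * 1 := (mul_one _).symm
      _ ≤ wt U p S * (Real.exp (lam * a) * Real.exp (-lam) ^ (S ∩ C).card) :=
          mul_le_mul_of_nonneg_left h3 h4
      _ = _ := by ring
  refine h2.trans ?_
  have h5 : ∑ S ∈ U.powerset.filter (fun S => ((S ∩ C).card : ℝ) ≤ a),
        Real.exp (lam * a) * (wt U p S * Real.exp (-lam) ^ (S ∩ C).card) ≤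
      ∑ S ∈ U.powerset, Real.exp (lam * a) * (wt U p S * Real.exp (-lam) ^ (S ∩ C).card) := by
    refine sum_le_sum_of_subset_of_nonneg (filter_subset _ _) fun S _ _ => ?_
    have h4 := wt_nonneg (U := U) h0 h1 S
    positivity
  refine h5.trans ?_
  rw [← mul_sum, gen hC]
  have h6 : p * Real.exp (-lam) + (1 - p) ≤ Real.exp (-(p * (lam - lam ^ 2))) := by
    have h7 : Real.exp (-lam) ≤ 1 - (lam - lam ^ 2) := by
      have := Real.abs_exp_sub_one_sub_id_le (x := -lam) (by rw [abs_neg, abs_of_nonneg hl]; exact hl1)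
      have := (abs_le.1 this).2
      nlinarith
    have h8 : p * Real.exp (-lam) + (1 - p) ≤ -(p * (lam - lam ^ 2)) + 1 := by nlinarith
    exact h8.trans (Real.add_one_le_exp _)
  have h9 : 0 ≤ p * Real.exp (-lam) + (1 - p) := by
    have : 0 ≤ 1 - p := by linarith
    positivity
  calc Real.exp (lam * a) * (p * Real.exp (-lam) + (1 - p)) ^ C.card
      ≤ Real.exp (lam * a) * Real.exp (-(p * (lam - lam ^ 2))) ^ C.card :=
        mul_le_mul_of_nonneg_left (pow_le_pow_left₀ h9 h6 _) (Real.exp_pos _).le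
    _ = Real.exp (lam * a + C.card * (-(p * (lam - lam ^ 2)))) := by
        rw [← Real.exp_nat_mul, ← Real.exp_add]
    _ ≤ _ := by
        apply Real.exp_le_exp.2
        linarith

end Pool.Agent.Run7.h918.AP
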