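import Mathlib
import Pool.Agent.Run7.h918.AP.Cover
import Pool.Agent.Run7.h918.AP.Rand

/-!
# Container families, counting, random subsets
-/

set_option autoImplicit false

namespace Pool.Agent.Run7.h918.AP

open Finset Pool.Agent.H617R3.AP

theorem notH_of_apfree {A : Finset ℕ} (hA : APFree 3 A) :
    ∀ x ∈ A, ∀ y ∈ A, ∀ z ∈ A, ¬ H x y z := by
  intro x hx y hy z hz h
  have key : ∀ a b c, a ∈ A → b ∈ A → c ∈ A → a < b → a + c = 2 * b → False := by
    intro a b c ha hb hc hab he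
    refine hA a (b - a) (by omega) fun i hi => ?_
    have h3 : i = 0 ∨ i = 1 ∨ i = 2 := by omega
    rcases h3 with rfl | rfl | rfl
    · simpa using ha
    · have : a + 1 * (b - a) = b := by omega
      rw [this]; exact hb
    · have : a + 2 * (b - a) = c := by omega
      rw [this]; exact hc
  unfold H at h
  obtain ⟨⟨h1, h2, h3⟩, h4⟩ := h
  rcases h4 with h4 | h4 | h4
  · rcases Nat.lt_or_gt_of_ne h3 with h5 | h5
    · exact key x z y hx hz hy h5 h4
    · exact key y z x hy hz hx (by omega) (by omega)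
  · rcases Nat.lt_or_gt_of_ne h1 with h5 | h5
    · exact key z x y hz hx hy (by omega) (by omega)
    · exact key y x z hy hx hz (by omega) h4
  · rcases Nat.lt_or_gt_of_ne h1 with h5 | h5
    · exact key x y z hx hy hz h5 h4
    · exact key z y x hz hy hx (by omega) (by omega)

theorem log_le_natlog {N : ℕ} (h : 3 ≤ Nat.log 2 N) : Real.log N ≤ Nat.log 2 N := by
  have hN : N ≠ 0 := by
    rintro rfl
    simp at h
  have hN0 : (0 : ℝ) < N := by exact_mod_cast Nat.pos_of_ne_zero hN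
  have h1 : (N : ℝ) ≤ 2 ^ (Nat.log 2 N + 1) := by
    exact_mod_cast (Nat.lt_pow_succ_log_self (by norm_num) N).le
  have h2 := Real.log_le_log hN0 h1
  rw [Real.log_pow] at h2
  have h3 := Real.log_two_lt_d9
  have h4 : (3 : ℝ) ≤ Nat.log 2 N := by exact_mod_cast h
  push_cast at h2
  nlinarith

/-- the family of containers -/
theorem family {ε : ℝ} (h0 : 0 < ε) (h1 : ε ≤ 1) {K x N : ℕ} (hx : x = Nat.log 2 N)
    (hx3 : 3 ≤ x) (hxε : 4 / ε ≤ x)
    (hc : Cov H ((1 + ε / 4) * r 3 N) (Icc 1 N) (Icc 1 N) (fun _ _ => False)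
        (r 3 N / (x : ℝ) ^ (K + 3))) :
    ∃ 𝒞 : Finset (Finset ℕ), (𝒞.card : ℝ) ≤ Real.exp (r 3 N / (x : ℝ) ^ (K + 1)) ∧
      (∀ C ∈ 𝒞, C ⊆ Icc 1 N ∧ (C.card : ℝ) ≤ (1 + ε / 2) * r 3 N) ∧
      ∀ I ⊆ Icc 1 N, APFree 3 I → ∃ C ∈ 𝒞, I ⊆ C := by
  obtain ⟨F, hF, hS⟩ := hc
  have hN : N ≠ 0 := by
    rintro rfl
    simp at hx
    omega
  have hN1 : 1 ≤ N := Nat.pos_of_ne_zero hN
  have hR : (0 : ℝ) < r 3 N := r_pos le_rfl hN1
  have hxr : (3 : ℝ) ≤ x := by exact_mod_cast hx3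
  have hx0 : (0 : ℝ) < x := by linarith
  set B : ℝ := r 3 N / (x : ℝ) ^ (K + 3) with hB
  have hB0 : 0 ≤ B := by positivity
  refine ⟨((Icc 1 N).powerset.filter fun T => T.card ≤ ⌊B⌋₊).image fun T => T ∪ F T, ?_, ?_, ?_⟩
  · have e1 : (((((Icc 1 N).powerset.filter fun T => T.card ≤ ⌊B⌋₊).image
        fun T => T ∪ F T).card : ℕ) : ℝ) ≤ ((N : ℝ) + 1) ^ ⌊B⌋₊ := by
      exact_mod_cast card_image_le.trans (small_card N ⌊B⌋₊)
    refine e1.trans ?_
    have e2 : (N : ℝ) + 1 ≤ Real.exp (2 * x) := by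
      have h2 : N + 1 ≤ 2 ^ (x + 1) := by
        rw [hx]; exact Nat.lt_pow_succ_log_self (by norm_num) N
      have h3 : (N : ℝ) + 1 ≤ 2 ^ (x + 1) := by exact_mod_cast h2
      have h4 : (2 : ℝ) ^ (x + 1) ≤ Real.exp 1 ^ (x + 1) := by
        apply pow_le_pow_left₀ (by norm_num)
        have := Real.exp_one_gt_d9
        linarith
      rw [← Real.exp_nat_mul] at h4
      refine h3.trans (h4.trans ?_)
      apply Real.exp_le_exp.2
      push_cast
      linarith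
    calc ((N : ℝ) + 1) ^ ⌊B⌋₊ ≤ Real.exp (2 * x) ^ ⌊B⌋₊ :=
          pow_le_pow_left₀ (by positivity) e2 _
      _ = Real.exp (⌊B⌋₊ * (2 * x)) := by rw [← Real.exp_nat_mul]
      _ ≤ Real.exp (r 3 N / (x : ℝ) ^ (K + 1)) := by
          apply Real.exp_le_exp.2
          have h5 : (⌊B⌋₊ : ℝ) ≤ B := Nat.floor_le hB0
          calc (⌊B⌋₊ : ℝ) * (2 * x) ≤ B * (x * x) := by
                apply mul_le_mul h5 _ (by positivity) hB0
                nlinarith
            _ = r 3 N / (x : ℝ) ^ (K + 1) := by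
                rw [hB, pow_add, pow_add]; field_simp
  · intro C hC
    rw [mem_image] at hC
    obtain ⟨T, hT, rfl⟩ := hC
    rw [mem_filter, mem_powerset] at hT
    refine ⟨union_subset hT.1 (hF T).1, ?_⟩
    have h2 : ((T ∪ F T).card : ℝ) ≤ T.card + (F T).card := by exact_mod_cast card_union_le _ _
    have h3 : (T.card : ℝ) ≤ B :=
      le_trans (by exact_mod_cast hT.2) (Nat.floor_le hB0)
    have h4 : B ≤ ε / 4 * r 3 N := by
      rw [hB, div_le_iff₀ (by positivity)]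
      have h5 : 1 ≤ ε / 4 * (x : ℝ) ^ (K + 3) := by
        have h6 : (x : ℝ) ≤ (x : ℝ) ^ (K + 3) := le_self_pow₀ (by linarith) (by omega)
        have h7 : 4 ≤ x * ε := by rwa [div_le_iff₀ h0] at hxε
        nlinarith
      nlinarith
    linarith [(hF T).2]
  · intro I hI hIF
    obtain ⟨T, hT, hTc, hTI⟩ := hS I hI (notH_of_apfree hIF) (fun _ _ _ _ => id)
    refine ⟨T ∪ F T, ?_, hTI⟩
    rw [mem_image]
    refine ⟨T, ?_, rfl⟩
    rw [mem_filter, mem_powerset]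
    exact ⟨hT.trans hI, Nat.le_floor hTc⟩

open Classical in
/-- counting -/
theorem count {ε L R : ℝ} (h0 : 0 < ε) {N : ℕ} {𝒞 : Finset (Finset ℕ)}
    (hcard : (𝒞.card : ℝ) ≤ Real.exp (R / L)) (hL : 4 / ε ≤ L) (hR : 0 ≤ R)
    (hsize : ∀ C ∈ 𝒞, C ⊆ Icc 1 N ∧ (C.card : ℝ) ≤ (1 + ε / 2) * R)
    (hcov : ∀ I ⊆ Icc 1 N, APFree 3 I → ∃ C ∈ 𝒞, I ⊆ C) :
    (((Icc 1 N).powerset.filter fun I => APFree 3 I).card : ℝ) ≤ 2 ^ ((1 + ε) * R) := by
  have h1 : ((Icc 1 N).powerset.filter fun I => APFree 3 I) ⊆ 𝒞.biUnion fun C => C.powerset := by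
    intro I hI
    rw [mem_filter, mem_powerset] at hI
    obtain ⟨C, hC, hIC⟩ := hcov I hI.1 hI.2
    rw [mem_biUnion]
    exact ⟨C, hC, mem_powerset.2 hIC⟩
  have h2 := (card_le_card h1).trans card_biUnion_le
  have h3 : ∑ C ∈ 𝒞, ((C.powerset.card : ℕ) : ℝ) ≤ ∑ C ∈ 𝒞, (2 : ℝ) ^ ((1 + ε / 2) * R) := by
    refine sum_le_sum fun C hC => ?_
    rw [card_powerset]
    push_cast
    rw [← Real.rpow_natCast]
    exact Real.rpow_le_rpow_of_exponent_le (by norm_num) (hsize C hC).2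
  rw [sum_const, nsmul_eq_mul] at h3
  have h4 : (((Icc 1 N).powerset.filter fun I => APFree 3 I).card : ℝ) ≤
      ∑ C ∈ 𝒞, ((C.powerset.card : ℕ) : ℝ) := by exact_mod_cast h2
  refine h4.trans (h3.trans ?_)
  have hL0 : 0 < L := lt_of_lt_of_le (by positivity) hL
  have h5 : Real.exp (R / L) ≤ (2 : ℝ) ^ (ε / 2 * R) := by
    rw [Real.rpow_def_of_pos (by norm_num)]
    apply Real.exp_le_exp.2
    have h6 : R / L ≤ ε / 4 * R := by
      rw [div_le_iff₀ hL0]
      have h7 : 4 ≤ L * ε := by rwa [div_le_iff₀ h0] at hL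
      nlinarith
    have h8 := Real.log_two_gt_d9
    have h9 : 0 ≤ ε * R := by positivity
    nlinarith
  calc (𝒞.card : ℝ) * (2 : ℝ) ^ ((1 + ε / 2) * R)
      ≤ (2 : ℝ) ^ (ε / 2 * R) * (2 : ℝ) ^ ((1 + ε / 2) * R) :=
        mul_le_mul_of_nonneg_right (hcard.trans h5) (by positivity)
    _ = 2 ^ ((1 + ε) * R) := by
        rw [← Real.rpow_add (by norm_num)]
        congr 1; ring

open Classical in
/-- the sets with at least `2 ^ r` subsets -/
theorem count_low {N : ℕ} : (2 : ℝ) ^ r 3 N ≤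
    (((Icc 1 N).powerset.filter fun I => APFree 3 I).card : ℝ) := by
  obtain ⟨A, hA, hAF, hAc⟩ := exists_opt (k := 3) (by norm_num) N
  have h : A.powerset ⊆ (Icc 1 N).powerset.filter fun I => APFree 3 I := by
    intro I hI
    rw [mem_powerset] at hI
    rw [mem_filter, mem_powerset]
    exact ⟨hI.trans hA, hAF.mono hI⟩
  have h2 := card_le_card h
  rw [card_powerset, hAc] at h2
  exact_mod_cast h2

open Classical in
/-- the largest size of a subset of `S` without three-term progressions -/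
noncomputable def a3 (S : Finset ℕ) : ℕ := (S.powerset.filter fun A => APFree 3 A).sup card

theorem le_a3 {S A : Finset ℕ} (hA : A ⊆ S) (h : APFree 3 A) : A.card ≤ a3 S := by
  classical
  unfold a3
  exact Finset.le_sup (f := card) (by rw [mem_filter, mem_powerset]; exact ⟨hA, h⟩)

theorem exists_a3 (S : Finset ℕ) : ∃ A ⊆ S, APFree 3 A ∧ A.card = a3 S := by
  classical
  have hne : (S.powerset.filter (fun A => APFree 3 A)).Nonempty := by
    refine ⟨∅, ?_⟩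
    rw [mem_filter]
    refine ⟨empty_mem_powerset _, fun a d _ h => ?_⟩
    have := h 0 (by omega)
    simp at this
  obtain ⟨A, hA, hA2⟩ := Finset.exists_mem_eq_sup _ hne card
  rw [mem_filter, mem_powerset] at hA
  exact ⟨A, hA.1, hA.2, hA2.symm⟩

theorem sum_union_le {α : Type} [DecidableEq α] {w : α → ℝ} (hw : ∀ a, 0 ≤ w a) (A B : Finset α) :
    ∑ S ∈ A ∪ B, w S ≤ ∑ S ∈ A, w S + ∑ S ∈ B, w S := by
  rw [← sum_union_inter]
  have := sum_nonneg (s := A ∩ B) fun S _ => hw S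
  linarith

theorem sum_biUnion_le {α β : Type} [DecidableEq α] [DecidableEq β] {w : α → ℝ}
    (hw : ∀ a, 0 ≤ w a) (𝒞 : Finset β) (f : β → Finset α) :
    ∑ S ∈ 𝒞.biUnion f, w S ≤ ∑ C ∈ 𝒞, ∑ S ∈ f C, w S := by
  induction 𝒞 using Finset.induction_on with
  | empty => simp
  | insert C 𝒞 hC ih =>
    rw [biUnion_insert, sum_insert hC]
    refine (sum_union_le hw _ _).trans ?_
    linarith

/-- random subsets -/
theorem random {ε L p : ℝ} (h0 : 0 < ε) (h1 : ε ≤ 1) {N : ℕ} {𝒞 : Finset (Finset ℕ)}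
    (hp : 0 ≤ p) (hp1 : p ≤ 1) (hL : 64 / ε ^ 2 ≤ L)
    (hcard : (𝒞.card : ℝ) ≤ Real.exp (p * r 3 N / L)) 
    (hsize : ∀ C ∈ 𝒞, C ⊆ Icc 1 N ∧ (C.card : ℝ) ≤ (1 + ε / 2) * r 3 N)
    (hcov : ∀ I ⊆ Icc 1 N, APFree 3 I → ∃ C ∈ 𝒞, I ⊆ C) :
    ∑ S ∈ (Icc 1 N).powerset.filter (fun S => (a3 S : ℝ) < (1 - ε) * (p * r 3 N) ∨
      (1 + ε) * (p * r 3 N) < a3 S), wt (Icc 1 N) p S ≤
      2 * Real.exp (-(ε ^ 2 / 64 * (p * r 3 N))) := by
  classical
  set X : ℝ := p * r 3 N with hX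
  have hX0 : 0 ≤ X := by positivity
  obtain ⟨A, hA, hAF, hAc⟩ := exists_opt (k := 3) (by norm_num) N
  have hsub : (Icc 1 N).powerset.filter (fun S => (a3 S : ℝ) < (1 - ε) * X ∨
      (1 + ε) * X < a3 S) ⊆ (Icc 1 N).powerset.filter (fun S => ((S ∩ A).card : ℝ) ≤ (1 - ε) * X) ∪
        𝒞.biUnion fun C => (Icc 1 N).powerset.filter (fun S => (1 + ε) * X ≤ ((S ∩ C).card : ℝ)) := by
    intro S hS
    rw [mem_filter, mem_powerset] at hS
    rw [mem_union, mem_filter, mem_powerset, mem_biUnion]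
    rcases hS.2 with h | h
    · left
      refine ⟨hS.1, ?_⟩
      have : ((S ∩ A).card : ℝ) ≤ a3 S := by
        exact_mod_cast le_a3 inter_subset_left (hAF.mono inter_subset_right)
      linarith
    · right
      obtain ⟨I, hI, hIF, hIc⟩ := exists_a3 S
      obtain ⟨C, hC, hIC⟩ := hcov I (hI.trans hS.1) hIF
      refine ⟨C, hC, ?_⟩
      rw [mem_filter, mem_powerset]
      refine ⟨hS.1, ?_⟩
      have : (I.card : ℝ) ≤ (S ∩ C).card := by exact_mod_cast card_le_card (subset_inter hI hIC)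
      rw [← hIc] at h
      linarith
  have hw := fun S => wt_nonneg (U := Icc 1 N) hp hp1 S
  have h2 : ∑ S ∈ (Icc 1 N).powerset.filter (fun S => (a3 S : ℝ) < (1 - ε) * X ∨
      (1 + ε) * X < a3 S), wt (Icc 1 N) p S ≤
      ∑ S ∈ (Icc 1 N).powerset.filter (fun S => ((S ∩ A).card : ℝ) ≤ (1 - ε) * X),
        wt (Icc 1 N) p S + ∑ C ∈ 𝒞, ∑ S ∈ (Icc 1 N).powerset.filter
          (fun S => (1 + ε) * X ≤ ((S ∩ C).card : ℝ)), wt (Icc 1 N) p S := by
    refine (sum_le_sum_of_subset_of_nonneg hsub fun S _ _ => hw S).trans ?_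
    refine (sum_union_le hw _ _).trans ?_
    exact add_le_add_right (sum_biUnion_le hw _ _) _
  refine h2.trans ?_
  -- lower tail
  have h3 := lower_tail (U := Icc 1 N) hA (p := p) (lam := ε / 2) (a := (1 - ε) * X) hp hp1
    (by linarith) (by linarith)
  have h4 : Real.exp (ε / 2 * ((1 - ε) * X) - p * (ε / 2 - (ε / 2) ^ 2) * A.card) ≤
      Real.exp (-(ε ^ 2 / 64 * X)) := by
    apply Real.exp_le_exp.2
    rw [hAc]
    have e : p * (ε / 2 - (ε / 2) ^ 2) * (r 3 N : ℝ) = (ε / 2 - (ε / 2) ^ 2) * X := by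
      rw [hX]; ring
    rw [e]
    have h5 : 0 ≤ ε ^ 2 * X := by positivity
    nlinarith
  -- upper tail
  have h6 : ∑ C ∈ 𝒞, ∑ S ∈ (Icc 1 N).powerset.filter
      (fun S => (1 + ε) * X ≤ ((S ∩ C).card : ℝ)), wt (Icc 1 N) p S ≤
      Real.exp (X / L) * Real.exp (-(ε ^ 2 / 32 * X)) := by
    have h7 : ∀ C ∈ 𝒞, ∑ S ∈ (Icc 1 N).powerset.filter
        (fun S => (1 + ε) * X ≤ ((S ∩ C).card : ℝ)), wt (Icc 1 N) p S ≤
        Real.exp (-(ε ^ 2 / 32 * X)) := by
      intro C hC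
      refine (upper_tail (U := Icc 1 N) (hsize C hC).1 (p := p) (lam := ε / 4)
        (a := (1 + ε) * X) hp hp1 (by linarith) (by linarith) (hsize C hC).2).trans ?_
      apply Real.exp_le_exp.2
      have e : p * (ε / 4 + (ε / 4) ^ 2) * ((1 + ε / 2) * (r 3 N : ℝ)) =
          (ε / 4 + (ε / 4) ^ 2) * (1 + ε / 2) * X := by rw [hX]; ring
      rw [e]
      have h8 : (ε / 4 + (ε / 4) ^ 2) * (1 + ε / 2) - ε / 4 * (1 + ε) + ε ^ 2 / 32 ≤ 0 := by
        nlinarith [mul_pos h0 h0, mul_pos (mul_pos h0 h0) h0]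
      have h9 := mul_le_mul_of_nonneg_right h8 hX0
      linarith
    refine (sum_le_sum h7).trans ?_
    rw [sum_const, nsmul_eq_mul]
    exact mul_le_mul_of_nonneg_right hcard (Real.exp_pos _).le
  have h10 : Real.exp (X / L) * Real.exp (-(ε ^ 2 / 32 * X)) ≤ Real.exp (-(ε ^ 2 / 64 * X)) := by
    rw [← Real.exp_add]
    apply Real.exp_le_exp.2
    have hL0 : 0 < L := lt_of_lt_of_le (by positivity) hL
    have h11 : X / L ≤ ε ^ 2 / 64 * X := by
      rw [div_le_iff₀ hL0]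
      have h12 : 64 ≤ L * ε ^ 2 := by rwa [div_le_iff₀ (by positivity)] at hL
      nlinarith
    linarith
  linarith [h3.trans h4, h6.trans h10]

end Pool.Agent.Run7.h918.AP
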